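import Pool.Agent.V11231.WC.Gad
import Pool.Agent.V11231.Q3

/-!
# Quantified formulas and the assignment game

The gadget `2 j + 1` belongs to the variable `j`; the bit of Waiter (existential variables) or
Client (universal variables) is the value. The gadgets `2 j` enforce the order: the bit of Waiter in
the gadget `2 j + 2` has to be the sum of the bits of Client in the gadgets `2 j + 1` and `2 j`, and
the bit of Waiter in the gadget `2 j + 1` of a universal variable has to be the bit of Client in
the gadget `2 j`.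
-/

set_option autoImplicit false

namespace Pool.Agent.V11231.WC

open Pool.Agent.H623R2.PS Pool.Agent.H656R2.AK Pool.Agent.V11231.Q3

/-- the four values -/
def allV : List (Bool × Bool) := [(false, false), (false, true), (true, false), (true, true)]

theorem mem_allV (v : Bool × Bool) : v ∈ allV := by
  obtain ⟨a, b⟩ := v
  cases a <;> cases b <;> simp [allV]

/-- the literals of the assignment game which falsify a literal -/
def one (qs : List Bool) (l : Bool × ℕ) : List Lit :=
  (allV.filter fun v => (bif qs.getD l.2 false then v.2 else v.1) != l.1).map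
    fun v => (2 * l.2 + 1, v)

/-- the terms of the `i`-th literal of a clause -/
def lits (qs : List Bool) (w : List (Bool × ℕ)) (i : ℕ) : List Term :=
  (w[i]?).elim [[]] fun l => (one qs l).map fun x => [x]

/-- the terms of a clause of length at most three -/
def tmC (qs : List Bool) (w : List (Bool × ℕ)) : List Term :=
  (lits qs w 0).flatMap fun a => (lits qs w 1).flatMap fun b => (lits qs w 2).map fun x =>
    a ++ (b ++ x)

/-- the values which violate the first rule -/
def vE : List ((Bool × Bool) × (Bool × Bool) × (Bool × Bool)) :=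
  (allV ×ˢ (allV ×ˢ allV)).filter fun p => p.1.1 != xor p.2.1.2 p.2.2.2

/-- the values which violate the second rule -/
def vU : List ((Bool × Bool) × (Bool × Bool)) :=
  (allV ×ˢ allV).filter fun p => p.1.1 != p.2.2

/-- the terms of the variable `j` -/
def tmE (j : ℕ) : List Term :=
  vE.map fun p => [(2 * j + 2, p.1), (2 * j + 1, p.2.1), (2 * j, p.2.2)]

/-- the terms of the universal variable `j` -/
def tmU (j : ℕ) : List Term := vU.map fun p => [(2 * j + 1, p.1), (2 * j, p.2)]

/-- all terms -/
def tms (Q : QF) : List Term :=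
  Q.2.flatMap (tmC Q.1) ++ ((List.range Q.1.length).flatMap tmE ++
    ((List.range Q.1.length).filter fun j => Q.1.getD j false).flatMap tmU)

/-- the number of gadgets -/
def kk (Q : QF) : ℕ := 2 * Q.1.length + 1

/-- the term is satisfied -/
def Sat (s : ℕ → Option (Bool × Bool)) (τ : Term) : Prop := ∀ l ∈ τ, s l.1 = some l.2

theorem mem_tmE {j : ℕ} {τ : Term} : τ ∈ tmE j ↔ ∃ v v1 v2 : Bool × Bool,
    v.1 ≠ xor v1.2 v2.2 ∧ τ = [(2 * j + 2, v), (2 * j + 1, v1), (2 * j, v2)] := by
  unfold tmE vE
  rw [List.mem_map]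
  constructor
  · rintro ⟨⟨v, v1, v2⟩, h, rfl⟩
    rw [List.mem_filter] at h
    exact ⟨v, v1, v2, by simpa using h.2, rfl⟩
  · rintro ⟨v, v1, v2, h, rfl⟩
    refine ⟨(v, v1, v2), ?_, rfl⟩
    rw [List.mem_filter, List.mem_product, List.mem_product]
    exact ⟨⟨mem_allV _, mem_allV _, mem_allV _⟩, by simpa using h⟩

theorem mem_tmU {j : ℕ} {τ : Term} : τ ∈ tmU j ↔ ∃ v v2 : Bool × Bool,
    v.1 ≠ v2.2 ∧ τ = [(2 * j + 1, v), (2 * j, v2)] := by
  unfold tmU vU
  rw [List.mem_map]
  constructor
  · rintro ⟨⟨v, v2⟩, h, rfl⟩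
    rw [List.mem_filter] at h
    exact ⟨v, v2, by simpa using h.2, rfl⟩
  · rintro ⟨v, v2, h, rfl⟩
    refine ⟨(v, v2), ?_, rfl⟩
    rw [List.mem_filter, List.mem_product]
    exact ⟨⟨mem_allV _, mem_allV _⟩, by simpa using h⟩

/-- the value of a variable -/
def vl (qs : List Bool) (s : ℕ → Option (Bool × Bool)) (j : ℕ) : Bool :=
  (s (2 * j + 1)).elim false fun v => bif qs.getD j false then v.2 else v.1

theorem exists_lits {qs : List Bool} {s : ℕ → Option (Bool × Bool)} {w : List (Bool × ℕ)}
    (hs : ∀ l ∈ w, s (2 * l.2 + 1) ≠ none) (i : ℕ) :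
    (∃ τ ∈ lits qs w i, Sat s τ) ↔ ∀ l, w[i]? = some l → vl qs s l.2 ≠ l.1 := by
  unfold lits
  cases hw : w[i]? with
  | none => simp [Sat]
  | some l =>
    obtain ⟨v, hv⟩ := Option.ne_none_iff_exists'.1 (hs l (List.mem_of_getElem? hw))
    have hvl : vl qs s l.2 = bif qs.getD l.2 false then v.2 else v.1 := by
      unfold vl; rw [hv]; rfl
    simp only [Option.elim, one, List.mem_map, List.mem_filter, Option.some.injEq, forall_eq']
    rw [hvl]
    constructor
    · rintro ⟨τ, ⟨x, ⟨v', ⟨_, h1⟩, rfl⟩, rfl⟩, hsat⟩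
      have h2 := hsat (2 * l.2 + 1, v') (by simp)
      simp only at h2
      rw [hv] at h2
      simp only [Option.some.injEq] at h2
      subst h2
      simpa using h1
    · intro h
      refine ⟨_, ⟨_, ⟨v, ⟨mem_allV v, by simpa using h⟩, rfl⟩, rfl⟩, ?_⟩
      intro l' hl'
      simp only [List.mem_cons, List.not_mem_nil, or_false] at hl'
      subst hl'
      exact hv

theorem exists_tmC {qs : List Bool} {s : ℕ → Option (Bool × Bool)} {w : List (Bool × ℕ)}
    (h3 : w.length ≤ 3) (hs : ∀ l ∈ w, s (2 * l.2 + 1) ≠ none) :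
    (∃ τ ∈ tmC qs w, Sat s τ) ↔ ∀ l ∈ w, vl qs s l.2 ≠ l.1 := by
  have key : (∃ τ ∈ tmC qs w, Sat s τ) ↔ (∃ τ ∈ lits qs w 0, Sat s τ) ∧
      (∃ τ ∈ lits qs w 1, Sat s τ) ∧ (∃ τ ∈ lits qs w 2, Sat s τ) := by
    unfold tmC Sat
    simp only [List.mem_flatMap, List.mem_map]
    constructor
    · rintro ⟨_, ⟨a, ha, b, hb, x, hx, rfl⟩, h⟩
      exact ⟨⟨a, ha, fun l hl => h l (by simp [hl])⟩, ⟨b, hb, fun l hl => h l (by simp [hl])⟩,
        ⟨x, hx, fun l hl => h l (by simp [hl])⟩⟩
    · rintro ⟨⟨a, ha, h1⟩, ⟨b, hb, h2⟩, ⟨x, hx, h3⟩⟩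
      refine ⟨_, ⟨a, ha, b, hb, x, hx, rfl⟩, ?_⟩
      intro l hl
      rw [List.mem_append, List.mem_append] at hl
      rcases hl with hl | hl | hl
      · exact h1 l hl
      · exact h2 l hl
      · exact h3 l hl
  rw [key, exists_lits hs, exists_lits hs, exists_lits hs]
  constructor
  · rintro ⟨g0, g1, g2⟩ l hl
    obtain ⟨i, hi, rfl⟩ := List.getElem_of_mem hl
    have hi3 : i = 0 ∨ i = 1 ∨ i = 2 := by omega
    rcases hi3 with rfl | rfl | rfl
    · exact g0 _ (List.getElem?_eq_getElem hi)
    · exact g1 _ (List.getElem?_eq_getElem hi)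
    · exact g2 _ (List.getElem?_eq_getElem hi)
  · intro h
    exact ⟨fun l hl => h l (List.mem_of_getElem? hl), fun l hl => h l (List.mem_of_getElem? hl),
      fun l hl => h l (List.mem_of_getElem? hl)⟩

theorem lits_lt {qs : List Bool} {w : List (Bool × ℕ)} {n : ℕ} (h : ∀ l ∈ w, l.2 < n) {i : ℕ} :
    ∀ τ ∈ lits qs w i, ∀ l ∈ τ, l.1 < 2 * n + 1 := by
  intro τ hτ l hl
  unfold lits at hτ
  cases hw : w[i]? with
  | none =>
    rw [hw] at hτ
    simp only [Option.elim, List.mem_singleton] at hτ
    subst hτ
    simp at hl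
  | some l0 =>
    rw [hw] at hτ
    simp only [Option.elim, one, List.mem_map] at hτ
    obtain ⟨x, ⟨v, _, rfl⟩, rfl⟩ := hτ
    simp only [List.mem_cons, List.not_mem_nil, or_false] at hl
    subst hl
    have := h l0 (List.mem_of_getElem? hw)
    simp only
    omega

theorem tmC_lt {qs : List Bool} {w : List (Bool × ℕ)} {n : ℕ} (h : ∀ l ∈ w, l.2 < n) :
    ∀ τ ∈ tmC qs w, ∀ l ∈ τ, l.1 < 2 * n + 1 := by
  intro τ hτ l hl
  unfold tmC at hτ
  simp only [List.mem_flatMap, List.mem_map] at hτ
  obtain ⟨a, ha, b, hb, x, hx, rfl⟩ := hτ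
  rw [List.mem_append, List.mem_append] at hl
  rcases hl with hl | hl | hl
  · exact lits_lt h a ha l hl
  · exact lits_lt h b hb l hl
  · exact lits_lt h x hx l hl

theorem tms_lt {Q : QF} (hQ : QFwf Q) : ∀ τ ∈ tms Q, ∀ l ∈ τ, l.1 < kk Q := by
  intro τ hτ l hl
  unfold tms at hτ
  unfold kk
  simp only [List.mem_append, List.mem_flatMap, List.mem_range, List.mem_filter] at hτ
  rcases hτ with ⟨w, hw, hτ⟩ | ⟨j, hj, hτ⟩ | ⟨j, ⟨hj, _⟩, hτ⟩
  · exact tmC_lt (hQ w hw) τ hτ l hl
  · obtain ⟨v, v1, v2, _, rfl⟩ := mem_tmE.1 hτ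
    simp only [List.mem_cons, List.not_mem_nil, or_false] at hl
    rcases hl with rfl | rfl | rfl <;> simp only <;> omega
  · obtain ⟨v, v2, _, rfl⟩ := mem_tmU.1 hτ
    simp only [List.mem_cons, List.not_mem_nil, or_false] at hl
    rcases hl with rfl | rfl <;> simp only <;> omega

/-- the values of the first variables -/
def vls (qs : List Bool) (s : ℕ → Option (Bool × Bool)) (p : ℕ) : List Bool :=
  (List.range p).map (vl qs s)

theorem vls_succ (qs : List Bool) (s : ℕ → Option (Bool × Bool)) (p : ℕ) :
    vls qs s (p + 1) = vls qs s p ++ [vl qs s p] := by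
  unfold vls
  rw [List.range_succ, List.map_append, List.map_singleton]

theorem vls_congr {qs : List Bool} {s s' : ℕ → Option (Bool × Bool)} {p : ℕ}
    (h : ∀ j < p, s (2 * j + 1) = s' (2 * j + 1)) : vls qs s p = vls qs s' p := by
  unfold vls
  apply List.map_congr_left
  intro j hj
  unfold vl
  rw [h j (List.mem_range.1 hj)]

theorem drop_eq {qs : List Bool} {p : ℕ} (hp : p < qs.length) :
    qs.drop p = qs.getD p false :: qs.drop (p + 1) := by
  rw [List.drop_eq_getElem_cons hp, List.getD_eq_getElem _ _ hp]

/-- the formula after the values of the first variables are fixed -/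
def TF (Q : QF) (u : List Bool) (p : ℕ) : Prop :=
  evq (Q.1.drop p) (fun v => evc (u ++ v) Q.2) = true

theorem TF_succ {Q : QF} {u : List Bool} {p : ℕ} (hp : p < Q.1.length) :
    TF Q u p ↔ if Q.1.getD p false = true then ∀ b, TF Q (u ++ [b]) (p + 1) else
      ∃ b, TF Q (u ++ [b]) (p + 1) := by
  unfold TF
  rw [drop_eq hp, evq_one]
  simp only [List.append_assoc, List.singleton_append]

theorem TF_end {Q : QF} {u : List Bool} : TF Q u Q.1.length ↔ evc u Q.2 = true := by
  unfold TF
  rw [List.drop_length]
  simp [evq]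

theorem evc_vls {Q : QF} (hQ : QFwf Q) (hQ3 : ∀ w ∈ Q.2, w.length ≤ 3) {s : ℕ → Option (Bool × Bool)}
    (hs : ∀ j < Q.1.length, s (2 * j + 1) ≠ none) :
    evc (vls Q.1 s Q.1.length) Q.2 = true ↔ ∀ τ ∈ Q.2.flatMap (tmC Q.1), ¬ Sat s τ := by
  have hval : ∀ j < Q.1.length, (vls Q.1 s Q.1.length).getD j false = vl Q.1 s j := by
    intro j hj
    unfold vls
    rw [List.getD_eq_getElem _ _ (by simpa using hj)]
    simp
  unfold evc
  simp only [List.all_eq_true, List.any_eq_true, beq_iff_eq]
  constructor
  · intro h τ hτ hsat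
    rw [List.mem_flatMap] at hτ
    obtain ⟨w, hw, hτ⟩ := hτ
    have h1 := (exists_tmC (hQ3 w hw) fun l hl => hs l.2 (hQ w hw l hl)).1 ⟨τ, hτ, hsat⟩
    obtain ⟨l, hl, h2⟩ := h w hw
    rw [hval _ (hQ w hw l hl)] at h2
    exact h1 l hl h2
  · intro h w hw
    by_contra hcon
    push Not at hcon
    obtain ⟨τ, hτ, hsat⟩ := (exists_tmC (qs := Q.1) (s := s) (w := w) (hQ3 w hw)
      fun l hl => hs l.2 (hQ w hw l hl)).2 (by
        intro l hl
        have := hcon l hl
        rwa [hval _ (hQ w hw l hl)] at this)
    exact h τ (List.mem_flatMap.2 ⟨w, hw, hτ⟩) hsat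

/-! ### Waiter -/

/-- the first gadgets have been played in order and obey the rules -/
structure Ordd (Q : QF) (s : ℕ → Option (Bool × Bool)) (p : ℕ) : Prop where
  lo : ∀ i < 2 * p + 1, s i ≠ none
  hi : ∀ i, 2 * p + 1 ≤ i → s i = none
  ce : ∀ j < p, ∀ v v1 v2 : Bool × Bool, s (2 * j + 2) = some v → s (2 * j + 1) = some v1 →
    s (2 * j) = some v2 → v.1 = xor v1.2 v2.2
  cu : ∀ j < p, Q.1.getD j false = true → ∀ v v2 : Bool × Bool, s (2 * j + 1) = some v →
    s (2 * j) = some v2 → v.1 = v2.2

theorem aw_of_true {Q : QF} (hQ : QFwf Q) (hQ3 : ∀ w ∈ Q.2, w.length ≤ 3) : ∀ (m p : ℕ) (s : ℕ → Option (Bool × Bool)),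
    p + m = Q.1.length → Ordd Q s p → TF Q (vls Q.1 s p) p → AW (kk Q) (tms Q) s := by
  intro m
  induction m with
  | zero =>
    intro p s hp hO hT
    rw [Nat.add_zero] at hp
    subst hp
    refine AW.done (fun k hk => hO.lo k (by unfold kk at hk; omega)) ?_
    intro τ hτ
    by_contra hcon
    push Not at hcon
    unfold tms at hτ
    rw [List.mem_append, List.mem_append] at hτ
    rcases hτ with hτ | hτ | hτ
    · rw [TF_end, evc_vls hQ hQ3 (fun j hj => hO.lo _ (by omega))] at hT
      exact hT τ hτ hcon
    · simp only [List.mem_flatMap, List.mem_range] at hτ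
      obtain ⟨j, hj, hτ⟩ := hτ
      obtain ⟨v, v1, v2, h1, rfl⟩ := mem_tmE.1 hτ
      exact h1 (hO.ce j hj v v1 v2 (hcon (2 * j + 2, v) (by simp))
        (hcon (2 * j + 1, v1) (by simp)) (hcon (2 * j, v2) (by simp)))
    · simp only [List.mem_flatMap, List.mem_range, List.mem_filter] at hτ
      obtain ⟨j, ⟨hj, hj1⟩, hτ⟩ := hτ
      obtain ⟨v, v2, h1, rfl⟩ := mem_tmU.1 hτ
      exact h1 (hO.cu j hj hj1 v v2 (hcon (2 * j + 1, v) (by simp)) (hcon (2 * j, v2) (by simp)))
  | succ m ih =>
    intro p s hp hO hT
    have hpn : p < Q.1.length := by omega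
    obtain ⟨v2, hv2⟩ := Option.ne_none_iff_exists'.1 (hO.lo (2 * p) (by omega))
    have key : ∀ v1 : Bool × Bool, (Q.1.getD p false = true → v1.1 = v2.2) →
        TF Q (vls Q.1 s p ++ [bif Q.1.getD p false then v1.2 else v1.1]) (p + 1) →
        AW (kk Q) (tms Q) (Function.update s (2 * p + 1) (some v1)) := by
      intro v1 h1 h2
      refine AW.step (2 * p + 2) (xor v1.2 v2.2) (by unfold kk; omega) ?_ ?_
      · rw [Function.update_of_ne (by omega)]
        exact hO.hi _ (by omega)
      · intro c
        refine ih (p + 1) _ (by omega) ?_ ?_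
        · constructor
          · intro i hi
            by_cases e1 : i = 2 * p + 2
            · subst e1; rw [Function.update_self]; simp
            · rw [Function.update_of_ne e1]
              by_cases e2 : i = 2 * p + 1
              · subst e2; rw [Function.update_self]; simp
              · rw [Function.update_of_ne e2]
                exact hO.lo i (by omega)
          · intro i hi
            rw [Function.update_of_ne (by omega), Function.update_of_ne (by omega)]
            exact hO.hi i (by omega)
          · intro j hj v v1' v2' g1 g2 g3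
            by_cases e : j = p
            · subst e
              rw [Function.update_self] at g1
              rw [Function.update_of_ne (by omega), Function.update_self] at g2
              rw [Function.update_of_ne (by omega), Function.update_of_ne (by omega), hv2] at g3
              simp only [Option.some.injEq] at g1 g2 g3
              subst g1 g2 g3
              rfl
            · rw [Function.update_of_ne (by omega), Function.update_of_ne (by omega)] at g1 g2 g3
              exact hO.ce j (by omega) v v1' v2' g1 g2 g3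
          · intro j hj hu v v2' g1 g2
            by_cases e : j = p
            · subst e
              rw [Function.update_of_ne (by omega), Function.update_self] at g1
              rw [Function.update_of_ne (by omega), Function.update_of_ne (by omega), hv2] at g2
              simp only [Option.some.injEq] at g1 g2
              subst g1 g2
              exact h1 hu
            · rw [Function.update_of_ne (by omega), Function.update_of_ne (by omega)] at g1 g2
              exact hO.cu j (by omega) hu v v2' g1 g2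
        · rw [vls_succ]
          have e1 : vls Q.1 (Function.update (Function.update s (2 * p + 1) (some v1)) (2 * p + 2)
              (some (xor v1.2 v2.2, c))) p = vls Q.1 s p := by
            apply vls_congr
            intro j hj
            rw [Function.update_of_ne (by omega), Function.update_of_ne (by omega)]
          have e2 : vl Q.1 (Function.update (Function.update s (2 * p + 1) (some v1)) (2 * p + 2)
              (some (xor v1.2 v2.2, c))) p = bif Q.1.getD p false then v1.2 else v1.1 := by
            unfold vl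
            rw [Function.update_of_ne (by omega), Function.update_self]
            rfl
          rw [e1, e2]
          exact h2
    rw [TF_succ hpn] at hT
    cases hq : Q.1.getD p false with
    | true =>
      rw [hq, if_pos rfl] at hT
      refine AW.step (2 * p + 1) v2.2 (by unfold kk; omega) (hO.hi _ (by omega)) fun c => ?_
      refine key (v2.2, c) (fun _ => rfl) ?_
      rw [hq]
      exact hT c
    | false =>
      rw [hq, if_neg (by simp)] at hT
      obtain ⟨b, hb⟩ := hT
      refine AW.step (2 * p + 1) b (by unfold kk; omega) (hO.hi _ (by omega)) fun c => ?_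
      refine key (b, c) (fun h => by rw [hq] at h; exact absurd h (by simp)) ?_
      rw [hq]
      exact hb

/-! ### Client -/

/-- the gadgets have been played in order -/
def Ord (Q : QF) (s : ℕ → Option (Bool × Bool)) : Prop :=
  (∀ j < Q.1.length, s (2 * j + 2) ≠ none → s (2 * j + 1) ≠ none ∧ s (2 * j) ≠ none) ∧
    ∀ j < Q.1.length, Q.1.getD j false = true → s (2 * j + 1) ≠ none → s (2 * j) ≠ none

/-- the last part of the invariant -/
def Pt (Q : QF) (s : ℕ → Option (Bool × Bool)) : Prop :=
  ∃ p ≤ Q.1.length, ¬ TF Q (vls Q.1 s p) p ∧ (∀ j < p, s (2 * j + 1) ≠ none) ∧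
    ∀ j, p ≤ j → j < Q.1.length → s (2 * j + 1) ≠ none → Q.1.getD j false = false

/-- the invariant of Client -/
def Iv (Q : QF) (s : ℕ → Option (Bool × Bool)) : Prop :=
  (∃ τ ∈ tms Q, Sat s τ) ∨ ¬ Ord Q s ∨ Pt Q s

theorem Ord.low {Q : QF} {s : ℕ → Option (Bool × Bool)} (h : Ord Q s) : ∀ j ≤ Q.1.length,
    s (2 * j) ≠ none → ∀ i < j, s (2 * i + 1) ≠ none := by
  intro j
  induction j with
  | zero => intro _ _ i hi; omega
  | succ j ih =>
    intro hj hs i hi
    obtain ⟨h1, h2⟩ := h.1 j (by omega) hs
    by_cases e : i = j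
    · subst e; exact h1
    · exact ih (by omega) h2 i (by omega)

theorem TF_extend {Q : QF} {s : ℕ → Option (Bool × Bool)} {p : ℕ} (h : ¬ TF Q (vls Q.1 s p) p) :
    ∀ m, p + m ≤ Q.1.length → (∀ i, p ≤ i → i < p + m → Q.1.getD i false = false) →
      ¬ TF Q (vls Q.1 s (p + m)) (p + m) := by
  intro m
  induction m with
  | zero => intro _ _; exact h
  | succ m ih =>
    intro hm hq
    have h1 := ih (by omega) fun i hi hi' => hq i hi (by omega)
    rw [TF_succ (by omega), hq (p + m) (by omega) (by omega), if_neg (by simp)] at h1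
    push Not at h1
    have h2 := h1 (vl Q.1 s (p + m))
    rw [← vls_succ] at h2
    exact h2

theorem mem_tms_C {Q : QF} {τ : Term} (h : τ ∈ Q.2.flatMap (tmC Q.1)) : τ ∈ tms Q :=
  List.mem_append_left _ h

theorem mem_tms_E {Q : QF} {j : ℕ} (hj : j < Q.1.length) {v v1 v2 : Bool × Bool}
    (h : v.1 ≠ xor v1.2 v2.2) : [(2 * j + 2, v), (2 * j + 1, v1), (2 * j, v2)] ∈ tms Q := by
  refine List.mem_append_right _ (List.mem_append_left _ ?_)
  rw [List.mem_flatMap]
  exact ⟨j, List.mem_range.2 hj, mem_tmE.2 ⟨v, v1, v2, h, rfl⟩⟩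

theorem mem_tms_U {Q : QF} {j : ℕ} (hj : j < Q.1.length) (hq : Q.1.getD j false = true)
    {v v2 : Bool × Bool} (h : v.1 ≠ v2.2) : [(2 * j + 1, v), (2 * j, v2)] ∈ tms Q := by
  refine List.mem_append_right _ (List.mem_append_right _ ?_)
  rw [List.mem_flatMap]
  exact ⟨j, List.mem_filter.2 ⟨List.mem_range.2 hj, hq⟩, mem_tmU.2 ⟨v, v2, h, rfl⟩⟩

theorem xor_ne (a b : Bool) : ∃ c : Bool, a ≠ xor c b := by
  cases a <;> cases b <;> decide

theorem xor_ne' (a b : Bool) : ∃ c : Bool, a ≠ xor b c := by
  cases a <;> cases b <;> decide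

theorem bool_ne (a : Bool) : ∃ c : Bool, a ≠ c := by
  cases a <;> decide

theorem ne_none_update {s : ℕ → Option (Bool × Bool)} {k i : ℕ} {v : Bool × Bool}
    (h : s i ≠ none) : Function.update s k (some v) i ≠ none := by
  by_cases e : i = k
  · subst e; rw [Function.update_self]; simp
  · rwa [Function.update_of_ne e]

theorem Iv.step {Q : QF} {s : ℕ → Option (Bool × Bool)} (h : Iv Q s) {k : ℕ} (w : Bool)
    (hk : k < kk Q) (hs : s k = none) : ∃ c, Iv Q (Function.update s k (some (w, c))) := by
  by_cases h1 : ∃ τ ∈ tms Q, Sat s τ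
  · obtain ⟨τ, hτ, hsat⟩ := h1
    refine ⟨false, Or.inl ⟨τ, hτ, fun l hl => ?_⟩⟩
    have h2 := hsat l hl
    have : l.1 ≠ k := by
      intro e
      rw [e, hs] at h2
      exact absurd h2 (by simp)
    rw [Function.update_of_ne this]
    exact h2
  by_cases h2 : Ord Q s
  · have h3 : Pt Q s := by
      rcases h with h | h | h
      · exact absurd h h1
      · exact absurd h2 h
      · exact h
    obtain ⟨p, hp, hF, hP, hE⟩ := h3
    by_cases hj : ∃ j, k = 2 * j + 1 ∧ Q.1.getD j false = true
    · obtain ⟨j, rfl, hq⟩ := hj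
      have hjn : j < Q.1.length := by unfold kk at hk; omega
      by_cases h4 : s (2 * j) = none
      · refine ⟨false, Or.inr (Or.inl fun hO => ?_)⟩
        have := hO.2 j hjn hq (by rw [Function.update_self]; simp)
        rw [Function.update_of_ne (by omega)] at this
        exact this h4
      · have hpj : p ≤ j := by
          by_contra hcon
          exact hP j (by omega) hs
        have hlow := h2.low j hjn.le h4
        obtain ⟨m, rfl⟩ := Nat.exists_eq_add_of_le hpj
        have h5 := TF_extend hF m (by omega) fun i hi hi' =>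
          hE i hi (by omega) (hlow i hi')
        rw [TF_succ hjn, hq, if_pos rfl] at h5
        push Not at h5
        obtain ⟨c, hc⟩ := h5
        refine ⟨c, Or.inr (Or.inr ⟨p + m + 1, hjn, ?_, ?_, ?_⟩)⟩
        · rw [vls_succ]
          have e1 : vls Q.1 (Function.update s (2 * (p + m) + 1) (some (w, c))) (p + m) =
              vls Q.1 s (p + m) := by
            apply vls_congr
            intro j hj
            rw [Function.update_of_ne (by omega)]
          have e2 : vl Q.1 (Function.update s (2 * (p + m) + 1) (some (w, c))) (p + m) = c := by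
            unfold vl
            rw [Function.update_self, hq]
            rfl
          rw [e1, e2]
          exact hc
        · intro j hj
          by_cases e : j = p + m
          · subst e; rw [Function.update_self]; simp
          · exact ne_none_update (hlow j (by omega))
        · intro j hj hjn' hsj
          rw [Function.update_of_ne (by omega)] at hsj
          exact hE j (by omega) hjn' hsj
    · refine ⟨false, Or.inr (Or.inr ⟨p, hp, ?_, fun j hj => ne_none_update (hP j hj), ?_⟩)⟩
      · have e1 : vls Q.1 (Function.update s k (some (w, false))) p = vls Q.1 s p := by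
          apply vls_congr
          intro i hi
          have : 2 * i + 1 ≠ k := by
            intro e
            rw [← e] at hs
            exact hP i hi hs
          rw [Function.update_of_ne this]
        rw [e1]
        exact hF
      · intro j hj' hjn hsj
        by_cases e : 2 * j + 1 = k
        · cases hq : Q.1.getD j false with
          | false => rfl
          | true => exact absurd ⟨j, e.symm, hq⟩ hj
        · rw [Function.update_of_ne e] at hsj
          exact hE j hj' hjn hsj
  · have h3 : (∃ j < Q.1.length, s (2 * j + 2) ≠ none ∧ (s (2 * j + 1) = none ∨ s (2 * j) = none)) ∨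
        ∃ j < Q.1.length, Q.1.getD j false = true ∧ s (2 * j + 1) ≠ none ∧ s (2 * j) = none := by
      by_contra hcon
      push Not at hcon
      exact h2 ⟨hcon.1, hcon.2⟩
    rcases h3 with ⟨j, hj, h4, h5⟩ | ⟨j, hj, hq, h4, h5⟩
    · obtain ⟨v, hv⟩ := Option.ne_none_iff_exists'.1 h4
      by_cases c1 : k = 2 * j + 1 ∧ s (2 * j) ≠ none
      · obtain ⟨rfl, c2⟩ := c1
        obtain ⟨v2, hv2⟩ := Option.ne_none_iff_exists'.1 c2
        obtain ⟨c, hc⟩ := xor_ne v.1 v2.2
        refine ⟨c, Or.inl ⟨_, mem_tms_E hj (v := v) (v1 := (w, c)) (v2 := v2) hc, ?_⟩⟩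
        intro l hl
        simp only [List.mem_cons, List.not_mem_nil, or_false] at hl
        rcases hl with rfl | rfl | rfl
        · rw [Function.update_of_ne (by simp)]; exact hv
        · exact Function.update_self _ _ _
        · rw [Function.update_of_ne (by simp only; omega)]; exact hv2
      · by_cases c2 : k = 2 * j ∧ s (2 * j + 1) ≠ none
        · obtain ⟨rfl, c3⟩ := c2
          obtain ⟨v1, hv1⟩ := Option.ne_none_iff_exists'.1 c3
          obtain ⟨c, hc⟩ := xor_ne' v.1 v1.2
          refine ⟨c, Or.inl ⟨_, mem_tms_E hj (v := v) (v1 := v1) (v2 := (w, c)) hc, ?_⟩⟩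
          intro l hl
          simp only [List.mem_cons, List.not_mem_nil, or_false] at hl
          rcases hl with rfl | rfl | rfl
          · rw [Function.update_of_ne (by simp)]; exact hv
          · rw [Function.update_of_ne (by simp)]; exact hv1
          · exact Function.update_self _ _ _
        · refine ⟨false, Or.inr (Or.inl fun hO => ?_)⟩
          obtain ⟨g1, g2⟩ := hO.1 j hj (ne_none_update h4)
          by_cases e1 : 2 * j + 1 = k
          · subst e1
            by_cases e2 : s (2 * j) = none
            · rw [Function.update_of_ne (by omega)] at g2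
              exact g2 e2
            · exact c1 ⟨rfl, e2⟩
          · rw [Function.update_of_ne e1] at g1
            by_cases e2 : 2 * j = k
            · exact c2 ⟨e2.symm, g1⟩
            · rw [Function.update_of_ne e2] at g2
              rcases h5 with h5 | h5
              · exact g1 h5
              · exact g2 h5
    · obtain ⟨v, hv⟩ := Option.ne_none_iff_exists'.1 h4
      by_cases e : k = 2 * j
      · subst e
        obtain ⟨c, hc⟩ := bool_ne v.1
        refine ⟨c, Or.inl ⟨_, mem_tms_U hj hq (v := v) (v2 := (w, c)) hc, ?_⟩⟩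
        intro l hl
        simp only [List.mem_cons, List.not_mem_nil, or_false] at hl
        rcases hl with rfl | rfl
        · rw [Function.update_of_ne (by simp)]; exact hv
        · exact Function.update_self _ _ _
      · refine ⟨false, Or.inr (Or.inl fun hO => ?_)⟩
        have := hO.2 j hj hq (ne_none_update h4)
        rw [Function.update_of_ne (by omega)] at this
        exact this h5

theorem Iv.final {Q : QF} (hQ : QFwf Q) (hQ3 : ∀ w ∈ Q.2, w.length ≤ 3)
    {s : ℕ → Option (Bool × Bool)} (h : Iv Q s) (hall : ∀ k < kk Q, s k ≠ none) :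
    ∃ τ ∈ tms Q, Sat s τ := by
  unfold kk at hall
  rcases h with h | h | ⟨p, hp, hF, _, hE⟩
  · exact h
  · exfalso
    apply h
    exact ⟨fun j hj _ => ⟨hall _ (by omega), hall _ (by omega)⟩, fun j hj _ _ => hall _ (by omega)⟩
  · obtain ⟨m, hm⟩ := Nat.exists_eq_add_of_le hp
    have h1 := TF_extend hF m (by omega) fun i hi hi' =>
      hE i hi (by omega) (hall _ (by omega))
    rw [← hm, TF_end, evc_vls hQ hQ3 (fun j hj => hall _ (by omega))] at h1
    push Not at h1
    obtain ⟨τ, hτ, hsat⟩ := h1
    exact ⟨τ, mem_tms_C hτ, hsat⟩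

/-- **The formula is true if and only if Waiter wins the assignment game.** -/
theorem aw_iff {Q : QF} (hQ : QFwf Q) (hQ3 : ∀ w ∈ Q.2, w.length ≤ 3) :
    AW (kk Q) (tms Q) (fun _ => none) ↔ evq Q.1 (fun v => evc v Q.2) = true := by
  have hT0 : TF Q [] 0 ↔ evq Q.1 (fun v => evc v Q.2) = true := by
    unfold TF
    rw [List.drop_zero]
    rfl
  rw [← hT0]
  constructor
  · intro h
    by_contra hcon
    refine not_aw (K := kk Q) (Ts := tms Q) (Iv Q) (fun s hI hall => hI.final hQ hQ3 hall)
      (fun s k w hI hk hs => hI.step w hk hs) ?_ h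
    exact Or.inr (Or.inr ⟨0, Nat.zero_le _, hcon, fun j hj => by omega,
      fun j _ _ hj => absurd rfl hj⟩)
  · intro h
    refine AW.step 0 false (by unfold kk; omega) rfl fun c => ?_
    refine aw_of_true hQ hQ3 Q.1.length 0 _ (by omega) ?_ h
    constructor
    · intro i hi
      have : i = 0 := by omega
      subst this
      rw [Function.update_self]
      simp
    · intro i hi
      rw [Function.update_of_ne (by omega)]
    · intro j hj; omega
    · intro j hj; omega

end Pool.Agent.V11231.WC
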