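import Pool.Agent.V11231.WC.Game

/-!
# The Waiter-Client domination game
-/

set_option autoImplicit false

namespace Pool.Agent.V11231.WC

/-- Adjacency matrices. The vertices are `0, …, n - 1`, where `n` is the number of rows. -/
abbrev Mat : Type := List (List Bool)

/-- adjacency of the vertices `x` and `y` -/
def Adj (M : Mat) (x y : ℕ) : Prop := (M.getD x []).getD y false = true

/-- The matrix is the adjacency matrix of a finite simple graph. -/
def IsGraph (M : Mat) : Prop :=
  (∀ r ∈ M, r.length = M.length) ∧
    (∀ x < M.length, ∀ y < M.length, Adj M x y → Adj M y x) ∧ ∀ x < M.length, ¬ Adj M x x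

/-- `D` is a dominating set: every vertex lies in `D` or has a neighbour in `D`. -/
def Dominating (M : Mat) (D : Finset ℕ) : Prop :=
  ∀ x < M.length, ∃ y ∈ D, y = x ∨ Adj M x y

/-- Dominator, who offers the pairs, can force that her vertices contain a dominating set. -/
def DominatorWins (M : Mat) : Prop := Win (Dominating M) (Finset.range M.length) ∅

/-- The decision problem WC-DOM. -/
def WCDom (M : Mat) : Prop := IsGraph M ∧ DominatorWins M

end Pool.Agent.V11231.WC
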