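import Pool.Agent.V11231.WC.Game

/-!
# The gadgets

A gadget consists of the four vertices `4 k, …, 4 k + 3`. Client wins if he has three vertices of
a gadget, therefore Waiter has to choose a perfect matching of the gadget.
-/

set_option autoImplicit false

namespace Pool.Agent.V11231.WC

/-- Literals: a gadget with the choice of Waiter and the choice of Client. -/
abbrev Lit : Type := ℕ × Bool × Bool

/-- Terms. -/
abbrev Term : Type := List Lit

/-- the vertices of Client for the choices `w` and `c` -/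
def inP (w c : Bool) (i : ℕ) : Bool :=
  bif w then (bif c then decide (2 ≤ i) else decide (i < 2)) else
    (bif c then decide (i % 2 = 1) else decide (i % 2 = 0))

/-- The assignment game: Waiter chooses a gadget and a bit, then Client chooses a bit. Waiter wins
if in the end no term is satisfied. -/
inductive AW (K : ℕ) (Ts : List Term) : (ℕ → Option (Bool × Bool)) → Prop
  | done {s : ℕ → Option (Bool × Bool)} : (∀ k < K, s k ≠ none) →
      (∀ τ ∈ Ts, ∃ l ∈ τ, s l.1 ≠ some l.2) → AW K Ts s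
  | step {s : ℕ → Option (Bool × Bool)} (k : ℕ) (w : Bool) : k < K → s k = none →
      (∀ c : Bool, AW K Ts (Function.update s k (some (w, c)))) → AW K Ts s

theorem not_aw {K : ℕ} {Ts : List Term} (I : (ℕ → Option (Bool × Bool)) → Prop)
    (h1 : ∀ s, I s → (∀ k < K, s k ≠ none) → ∃ τ ∈ Ts, ∀ l ∈ τ, s l.1 = some l.2)
    (h2 : ∀ s k w, I s → k < K → s k = none → ∃ c, I (Function.update s k (some (w, c))))
    {s : ℕ → Option (Bool × Bool)} (h : I s) : ¬ AW K Ts s := by
  intro hw
  induction hw with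
  | done ha hb =>
    obtain ⟨τ, hτ, h3⟩ := h1 _ h ha
    obtain ⟨l, hl, h4⟩ := hb τ hτ
    exact h4 (h3 l hl)
  | step k w hk hs _ ih =>
    obtain ⟨c, hc⟩ := h2 _ k w h hk hs
    exact ih c hc

/-- the target of Waiter -/
def TH (K : ℕ) (Ts : List Term) (D : Finset ℕ) : Prop :=
  (∀ k < K, ∀ j < 4, ∃ i < 4, i ≠ j ∧ 4 * k + i ∈ D) ∧
    ∀ τ ∈ Ts, ∃ l ∈ τ, ∃ i < 4, inP l.2.1 l.2.2 i = true ∧ 4 * l.1 + i ∈ D

/-! ### Waiter -/

theorem match_out (w : Bool) : ∀ x ∈ [(if w then 0 else 0 : ℕ), if w then 2 else 1],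
    ∀ y ∈ [(if w then 1 else 2 : ℕ), 3],
    ∃ c : Bool, (∀ j < 4, ∃ i < 4, i ≠ j ∧ (i = x ∨ i = y)) ∧
      ∀ w' c' : Bool, (w', c') ≠ (w, c) → ∃ i < 4, inP w' c' i = true ∧ (i = x ∨ i = y) := by
  cases w <;> decide

/-- the relation between the positions for Waiter -/
def Rel (K : ℕ) (s : ℕ → Option (Bool × Bool)) (U D : Finset ℕ) : Prop :=
  ∀ k < K, (s k = none → ∀ i < 4, 4 * k + i ∈ U) ∧
    ∀ v : Bool × Bool, s k = some v → (∀ j < 4, ∃ i < 4, i ≠ j ∧ 4 * k + i ∈ D) ∧
      ∀ v' : Bool × Bool, v' ≠ v → ∃ i < 4, inP v'.1 v'.2 i = true ∧ 4 * k + i ∈ D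

theorem Rel.next {K : ℕ} {s : ℕ → Option (Bool × Bool)} {U D U' D' : Finset ℕ} (h : Rel K s U D)
    {k x y : ℕ} {w c : Bool}
    (hc : (∀ j < 4, ∃ i < 4, i ≠ j ∧ (i = x ∨ i = y)) ∧
      ∀ w' c' : Bool, (w', c') ≠ (w, c) → ∃ i < 4, inP w' c' i = true ∧ (i = x ∨ i = y))
    (hx : 4 * k + x ∈ D') (hy : 4 * k + y ∈ D') (hD : D ⊆ D')
    (hU : ∀ k', k' ≠ k → ∀ i < 4, 4 * k' + i ∈ U → 4 * k' + i ∈ U') :
    Rel K (Function.update s k (some (w, c))) U' D' := by
  intro k' hk'
  by_cases hkk : k' = k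
  · subst hkk
    rw [Function.update_self]
    refine ⟨fun h => by simp at h, ?_⟩
    intro v hv
    simp only [Option.some.injEq] at hv
    subst hv
    have hmem : ∀ i, i = x ∨ i = y → 4 * k' + i ∈ D' := by
      rintro i (rfl | rfl)
      · exact hx
      · exact hy
    refine ⟨fun j hj => ?_, fun v' hv' => ?_⟩
    · obtain ⟨i, hi, h1, h2⟩ := hc.1 j hj
      exact ⟨i, hi, h1, hmem i h2⟩
    · obtain ⟨i, hi, h1, h2⟩ := hc.2 v'.1 v'.2 hv'
      exact ⟨i, hi, h1, hmem i h2⟩
  · rw [Function.update_of_ne hkk]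
    obtain ⟨h1, h2⟩ := h k' hk'
    refine ⟨fun hs i hi => hU k' hkk i hi (h1 hs i hi), fun v hv => ?_⟩
    obtain ⟨h3, h4⟩ := h2 v hv
    refine ⟨fun j hj => ?_, fun v' hv' => ?_⟩
    · obtain ⟨i, hi, g1, g2⟩ := h3 j hj
      exact ⟨i, hi, g1, hD g2⟩
    · obtain ⟨i, hi, g1, g2⟩ := h4 v' hv'
      exact ⟨i, hi, g1, hD g2⟩

theorem win_of_aw {K : ℕ} {Ts : List Term} (hTs : ∀ τ ∈ Ts, ∀ l ∈ τ, l.1 < K)
    {s : ℕ → Option (Bool × Bool)} (h : AW K Ts s) :
    ∀ {U D : Finset ℕ}, Rel K s U D → Win (TH K Ts) U D := by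
  induction h with
  | done h1 h2 =>
    intro U D hR
    refine Win.done ⟨?_, ?_⟩
    · intro k hk
      obtain ⟨v, hv⟩ := Option.ne_none_iff_exists'.1 (h1 k hk)
      exact ((hR k hk).2 v hv).1
    · intro τ hτ
      obtain ⟨l, hl, h3⟩ := h2 τ hτ
      have hlK := hTs τ hτ l hl
      obtain ⟨v, hv⟩ := Option.ne_none_iff_exists'.1 (h1 l.1 hlK)
      refine ⟨l, hl, ?_⟩
      have h4 : l.2 ≠ v := by
        intro h
        apply h3
        rw [hv, h]
      exact ((hR l.1 hlK).2 v hv).2 l.2 h4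
  | step k w hk hs _ ih =>
    intro U D hR
    have hX := (hR k hk).1 hs
    have hm := match_out w
    set p1 : ℕ := (if w then 0 else 0 : ℕ) with hp1
    set q1 : ℕ := (if w then 2 else 1 : ℕ) with hq1
    set p2 : ℕ := (if w then 1 else 2 : ℕ) with hp2
    have hlt : p1 < 4 ∧ q1 < 4 ∧ p2 < 4 ∧ p1 ≠ q1 ∧ p1 ≠ p2 ∧ p1 ≠ 3 ∧ q1 ≠ p2 ∧ q1 ≠ 3 ∧
        p2 ≠ 3 := by
      rw [hp1, hq1, hp2]
      cases w <;> decide
    obtain ⟨l1, l2, l3, n1, n2, n3, n4, n5, n6⟩ := hlt
    clear_value p1 q1 p2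
    have hfin : ∀ x ∈ [p1, q1], ∀ y ∈ [p2, 3], ∀ D' : Finset ℕ, D ⊆ D' → 4 * k + x ∈ D' →
        4 * k + y ∈ D' → Win (TH K Ts) ((((U.erase (4 * k + p1)).erase (4 * k + q1)).erase
          (4 * k + p2)).erase (4 * k + 3)) D' := by
      intro x hx y hy D' hD hxD hyD
      obtain ⟨c, hc⟩ := hm x hx y hy
      refine ih c (hR.next hc hxD hyD hD ?_)
      intro k' hk' i hi hU
      simp only [Finset.mem_erase]
      refine ⟨by omega, by omega, by omega, by omega, hU⟩
    have hin : ∀ x ∈ [p1, q1], Win (TH K Ts) ((U.erase (4 * k + p1)).erase (4 * k + q1))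
        (insert (4 * k + x) D) := by
      intro x hx
      refine Win.round (4 * k + p2) (4 * k + 3) ?_ ?_ (by omega) ?_ ?_
      · simp only [Finset.mem_erase]
        exact ⟨by omega, by omega, hX _ l3⟩
      · simp only [Finset.mem_erase]
        exact ⟨by omega, by omega, hX _ (by omega)⟩
      · refine hfin x hx p2 (by simp) _ ?_ ?_ ?_
        · exact (Finset.subset_insert _ _).trans (Finset.subset_insert _ _)
        · simp
        · simp
      · refine hfin x hx 3 (by simp) _ ?_ ?_ ?_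
        · exact (Finset.subset_insert _ _).trans (Finset.subset_insert _ _)
        · simp
        · simp
    exact Win.round (4 * k + p1) (4 * k + q1) (hX _ l1) (hX _ l2) (by omega)
      (hin p1 (by simp)) (hin q1 (by simp))

/-! ### Client -/

/-- the number of vertices of a gadget in a set -/
def cnt (S : Finset ℕ) (k : ℕ) : ℕ := ((Finset.range 4).filter fun i => 4 * k + i ∈ S).card

theorem cnt_le (S : Finset ℕ) (k : ℕ) : cnt S k ≤ 4 := by
  unfold cnt
  exact (Finset.card_filter_le _ _).trans (by simp)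

theorem cnt_erase_lt {S : Finset ℕ} {k i : ℕ} (hi : i < 4) (h : 4 * k + i ∈ S) :
    cnt (S.erase (4 * k + i)) k + 1 = cnt S k := by
  unfold cnt
  have : (Finset.range 4).filter (fun j => 4 * k + j ∈ S.erase (4 * k + i)) =
      ((Finset.range 4).filter (fun j => 4 * k + j ∈ S)).erase i := by
    ext j
    simp only [Finset.mem_filter, Finset.mem_range, Finset.mem_erase]
    constructor
    · rintro ⟨h1, h2, h3⟩; exact ⟨by omega, h1, h3⟩
    · rintro ⟨h1, h2, h3⟩; exact ⟨h2, by omega, h3⟩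
  rw [this, Finset.card_erase_of_mem (by simp [hi, h])]
  have hpos : 0 < ((Finset.range 4).filter (fun j => 4 * k + j ∈ S)).card :=
    Finset.card_pos.2 ⟨i, by simp [hi, h]⟩
  omega

theorem cnt_erase_le (S : Finset ℕ) (k a : ℕ) : cnt (S.erase a) k ≤ cnt S k := by
  unfold cnt
  apply Finset.card_le_card
  intro j hj
  simp only [Finset.mem_filter, Finset.mem_range, Finset.mem_erase] at hj ⊢
  exact ⟨hj.1, hj.2.2⟩

theorem cnt_insert_le (S : Finset ℕ) (k a : ℕ) : cnt (insert a S) k ≤ cnt S k + 1 := by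
  unfold cnt
  have : (Finset.range 4).filter (fun j => 4 * k + j ∈ insert a S) ⊆
      insert (a - 4 * k) ((Finset.range 4).filter (fun j => 4 * k + j ∈ S)) := by
    intro j hj
    simp only [Finset.mem_filter, Finset.mem_range, Finset.mem_insert] at hj ⊢
    rcases hj.2 with h | h
    · left; omega
    · right; exact ⟨hj.1, h⟩
  exact (Finset.card_le_card this).trans (Finset.card_insert_le _ _)

theorem cnt_insert_eq {S : Finset ℕ} {k a : ℕ} (h : a / 4 ≠ k) : cnt (insert a S) k = cnt S k := by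
  unfold cnt
  congr 1
  ext j
  simp only [Finset.mem_filter, Finset.mem_range, Finset.mem_insert]
  constructor
  · rintro ⟨h1, h2 | h2⟩
    · omega
    · exact ⟨h1, h2⟩
  · rintro ⟨h1, h2⟩; exact ⟨h1, Or.inr h2⟩

/-- a gadget in which Client gets three vertices -/
def Three (K : ℕ) (U D : Finset ℕ) : Prop := ∃ k < K, 2 * cnt D k + cnt U k ≤ 3

theorem exists_unhit {D : Finset ℕ} {k : ℕ} (h : cnt D k ≤ 1) :
    ∃ j < 4, ∀ i < 4, i ≠ j → 4 * k + i ∉ D := by
  unfold cnt at h
  rw [Finset.card_le_one] at h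
  by_cases hne : ∃ j < 4, 4 * k + j ∈ D
  · obtain ⟨j, hj, hjD⟩ := hne
    refine ⟨j, hj, fun i hi hij hiD => hij ?_⟩
    exact h i (by simp [hi, hiD]) j (by simp [hj, hjD])
  · push Not at hne
    exact ⟨0, by omega, fun i hi _ => hne i hi⟩

theorem Three.not_TH {K : ℕ} {Ts : List Term} {U D : Finset ℕ} (h : Three K U D) : ¬ TH K Ts D := by
  obtain ⟨k, hk, h1⟩ := h
  obtain ⟨j, hj, h2⟩ := exists_unhit (D := D) (k := k) (by omega)
  intro hT
  obtain ⟨i, hi, h3, h4⟩ := hT.1 k hk j hj
  exact h2 i hi h3 h4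

theorem Three.step {K : ℕ} {U D : Finset ℕ} (h : Three K U D) {a b : ℕ} (ha : a ∈ U) (hb : b ∈ U)
    (hab : a ≠ b) : Three K ((U.erase a).erase b) (insert a D) ∨
      Three K ((U.erase a).erase b) (insert b D) := by
  obtain ⟨k, hk, h1⟩ := h
  have e1 := cnt_erase_le U k a
  have e2 := cnt_erase_le (U.erase a) k b
  by_cases hka : a / 4 = k
  · by_cases hkb : b / 4 = k
    · left
      refine ⟨k, hk, ?_⟩
      have ea : a = 4 * k + a % 4 := by omega
      have eb : b = 4 * k + b % 4 := by omega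
      have h2 : cnt (U.erase a) k + 1 = cnt U k := by
        rw [ea]
        refine cnt_erase_lt (by omega) ?_
        rw [← ea]; exact ha
      have h3 : cnt ((U.erase a).erase b) k + 1 = cnt (U.erase a) k := by
        rw [eb]
        refine cnt_erase_lt (by omega) ?_
        rw [← eb, Finset.mem_erase]; exact ⟨hab.symm, hb⟩
      have h4 := cnt_insert_le D k a
      omega
    · right
      refine ⟨k, hk, ?_⟩
      rw [cnt_insert_eq hkb]
      omega
  · left
    refine ⟨k, hk, ?_⟩
    rw [cnt_insert_eq hka]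
    omega

theorem match_in_fin : ∀ i j : Fin 4, i ≠ j → ∃ w : Bool, ∀ c : Bool,
    inP w c i ≠ inP w c j ∧ ∀ i' j' : Fin 4, i' ≠ j' → (i' ≠ i ∧ i' ≠ j ∧ j' ≠ i ∧ j' ≠ j) →
      inP w c i' ≠ inP w c j' := by decide

theorem match_in {i j : ℕ} (hi : i < 4) (hj : j < 4) (hij : i ≠ j) : ∃ w : Bool, ∀ c : Bool,
    inP w c i ≠ inP w c j ∧ ∀ i' < 4, ∀ j' < 4, i' ≠ j' → i' ≠ i → i' ≠ j → j' ≠ i → j' ≠ j →
      inP w c i' ≠ inP w c j' := by
  obtain ⟨w, hw⟩ := match_in_fin ⟨i, hi⟩ ⟨j, hj⟩ (by simpa [Fin.ext_iff] using hij)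
  refine ⟨w, fun c => ⟨(hw c).1, ?_⟩⟩
  intro i' hi' j' hj' h1 h2 h3 h4 h5
  exact (hw c).2 ⟨i', hi'⟩ ⟨j', hj'⟩ (by simpa [Fin.ext_iff] using h1)
    (by simp only [ne_eq, Fin.mk.injEq]; exact ⟨h2, h3, h4, h5⟩)

/-- the relation between the positions for Client -/
structure RelC (K : ℕ) (s : ℕ → Option (Bool × Bool)) (U D : Finset ℕ) : Prop where
  free : ∀ k < K, s k = none → cnt D k = 0 ∧ ∀ i < 4, 4 * k + i ∈ U
  av : ∀ k < K, ∀ v : Bool × Bool, s k = some v → ∀ i < 4, inP v.1 v.2 i = true → 4 * k + i ∉ D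
  pr : ∀ k < K, ∀ v : Bool × Bool, s k = some v → ∀ i < 4, ∀ j < 4, i ≠ j → 4 * k + i ∈ U →
    4 * k + j ∈ U → inP v.1 v.2 i ≠ inP v.1 v.2 j
  ct : ∀ k < K, ∀ v : Bool × Bool, s k = some v → (cnt D k ≤ 1 ∧ cnt U k ≤ 2) ∨ cnt U k = 0

/-- the invariant for Client -/
def InvC (K : ℕ) (Ts : List Term) (U D : Finset ℕ) : Prop :=
  (∀ x ∈ U, x < 4 * K) ∧ (Three K U D ∨ ∃ s, ¬ AW K Ts s ∧ RelC K s U D)

theorem cnt_eq_zero {S : Finset ℕ} {k : ℕ} (h : cnt S k = 0) {i : ℕ} (hi : i < 4) :
    4 * k + i ∉ S := by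
  unfold cnt at h
  rw [Finset.card_eq_zero, Finset.filter_eq_empty_iff] at h
  exact h (Finset.mem_range.2 hi)

theorem InvC.not_TH {K : ℕ} {Ts : List Term} (hTs : ∀ τ ∈ Ts, ∀ l ∈ τ, l.1 < K)
    {U D : Finset ℕ} (h : InvC K Ts U D) : ¬ TH K Ts D := by
  obtain ⟨_, h | ⟨s, hs, hR⟩⟩ := h
  · exact h.not_TH
  · intro hT
    have hbig : ∀ k < K, ¬ cnt D k ≤ 1 := by
      intro k hk hle
      obtain ⟨j, hj, h2⟩ := exists_unhit hle
      obtain ⟨i, hi, h3, h4⟩ := hT.1 k hk j hj
      exact h2 i hi h3 h4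
    have hall : ∀ k < K, s k ≠ none := by
      intro k hk hn
      have := (hR.free k hk hn).1
      exact hbig k hk (by omega)
    apply hs
    refine AW.done hall ?_
    intro τ hτ
    obtain ⟨l, hl, i, hi, h1, h2⟩ := hT.2 τ hτ
    refine ⟨l, hl, fun hsl => ?_⟩
    exact hR.av l.1 (hTs τ hτ l hl) l.2 hsl i hi h1 h2

theorem RelC.next {K : ℕ} {s : ℕ → Option (Bool × Bool)} {U D : Finset ℕ} (h : RelC K s U D)
    {k i j : ℕ} (hk : k < K) (hi : i < 4) (hj : j < 4) (hij : i ≠ j) (hiU : 4 * k + i ∈ U)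
    (hjU : 4 * k + j ∈ U) (hs : s k = none) {v : Bool × Bool} (hiv : inP v.1 v.2 i = true)
    (hjv : inP v.1 v.2 j = false) (hv : ∀ i' < 4, ∀ j' < 4, i' ≠ j' → i' ≠ i → i' ≠ j → j' ≠ i →
      j' ≠ j → inP v.1 v.2 i' ≠ inP v.1 v.2 j') :
    RelC K (Function.update s k (some v)) ((U.erase (4 * k + i)).erase (4 * k + j))
      (insert (4 * k + j) D) := by
  have hne : ∀ k', k' ≠ k → ∀ i' < 4, 4 * k' + i' ≠ 4 * k + i ∧ 4 * k' + i' ≠ 4 * k + j :=
    fun k' _ i' _ => ⟨by omega, by omega⟩
  constructor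
  · intro k' hk' hs'
    by_cases hkk : k' = k
    · subst hkk
      rw [Function.update_self] at hs'
      exact absurd hs' (by simp)
    · rw [Function.update_of_ne hkk] at hs'
      obtain ⟨h1, h2⟩ := h.free k' hk' hs'
      refine ⟨by rw [cnt_insert_eq (by omega)]; exact h1, fun i' hi' => ?_⟩
      obtain ⟨h3, h4⟩ := hne k' hkk i' hi'
      simp only [Finset.mem_erase]
      exact ⟨h4, h3, h2 i' hi'⟩
  · intro k' hk' v' hv' i' hi' h1
    by_cases hkk : k' = k
    · subst hkk
      rw [Function.update_self, Option.some.injEq] at hv'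
      subst hv'
      rw [Finset.mem_insert]
      rintro (h2 | h2)
      · have : i' = j := by omega
        subst this
        rw [hjv] at h1
        exact absurd h1 (by simp)
      · exact cnt_eq_zero (h.free k' hk' hs).1 hi' h2
    · rw [Function.update_of_ne hkk] at hv'
      rw [Finset.mem_insert]
      rintro (h2 | h2)
      · exact (hne k' hkk i' hi').2 h2
      · exact h.av k' hk' v' hv' i' hi' h1 h2
  · intro k' hk' v' hv' i' hi' j' hj' hij' h1 h2
    simp only [Finset.mem_erase] at h1 h2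
    by_cases hkk : k' = k
    · subst hkk
      rw [Function.update_self, Option.some.injEq] at hv'
      subst hv'
      exact hv i' hi' j' hj' hij' (by omega) (by omega) (by omega) (by omega)
    · rw [Function.update_of_ne hkk] at hv'
      exact h.pr k' hk' v' hv' i' hi' j' hj' hij' h1.2.2 h2.2.2
  · intro k' hk' v' hv'
    by_cases hkk : k' = k
    · subst hkk
      left
      have e1 := cnt_insert_le D k' (4 * k' + j)
      have e2 := (h.free k' hk' hs).1
      have e3 := cnt_erase_lt hi hiU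
      have e4 := cnt_erase_lt (S := U.erase (4 * k' + i)) hj
        (by rw [Finset.mem_erase]; exact ⟨by omega, hjU⟩)
      have e5 := cnt_le U k'
      omega
    · rw [Function.update_of_ne hkk] at hv'
      rw [cnt_insert_eq (by omega)]
      have e1 := cnt_erase_le U k' (4 * k + i)
      have e2 := cnt_erase_le (U.erase (4 * k + i)) k' (4 * k + j)
      have e3 := h.ct k' hk' v' hv'
      omega

theorem RelC.fin {K : ℕ} {s : ℕ → Option (Bool × Bool)} {U D : Finset ℕ} (h : RelC K s U D)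
    {k i j : ℕ} (hk : k < K) (hi : i < 4) (hj : j < 4) (hij : i ≠ j) (hiU : 4 * k + i ∈ U)
    (hjU : 4 * k + j ∈ U) {v : Bool × Bool} (hs : s k = some v) (hjv : inP v.1 v.2 j = false) :
    RelC K s ((U.erase (4 * k + i)).erase (4 * k + j)) (insert (4 * k + j) D) := by
  have hne : ∀ k', k' ≠ k → ∀ i' < 4, 4 * k' + i' ≠ 4 * k + i ∧ 4 * k' + i' ≠ 4 * k + j :=
    fun k' _ i' _ => ⟨by omega, by omega⟩
  constructor
  · intro k' hk' hs'
    by_cases hkk : k' = k
    · subst hkk
      rw [hs] at hs'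
      exact absurd hs' (by simp)
    · obtain ⟨h1, h2⟩ := h.free k' hk' hs'
      refine ⟨by rw [cnt_insert_eq (by omega)]; exact h1, fun i' hi' => ?_⟩
      obtain ⟨h3, h4⟩ := hne k' hkk i' hi'
      simp only [Finset.mem_erase]
      exact ⟨h4, h3, h2 i' hi'⟩
  · intro k' hk' v' hv' i' hi' h1
    by_cases hkk : k' = k
    · subst hkk
      rw [hs, Option.some.injEq] at hv'
      subst hv'
      rw [Finset.mem_insert]
      rintro (h2 | h2)
      · have : i' = j := by omega
        subst this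
        rw [hjv] at h1
        exact absurd h1 (by simp)
      · exact h.av k' hk' v hs i' hi' h1 h2
    · rw [Finset.mem_insert]
      rintro (h2 | h2)
      · exact (hne k' hkk i' hi').2 h2
      · exact h.av k' hk' v' hv' i' hi' h1 h2
  · intro k' hk' v' hv' i' hi' j' hj' hij' h1 h2
    simp only [Finset.mem_erase] at h1 h2
    exact h.pr k' hk' v' hv' i' hi' j' hj' hij' h1.2.2 h2.2.2
  · intro k' hk' v' hv'
    by_cases hkk : k' = k
    · subst hkk
      right
      have e3 := cnt_erase_lt hi hiU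
      have e4 := cnt_erase_lt (S := U.erase (4 * k' + i)) hj
        (by rw [Finset.mem_erase]; exact ⟨by omega, hjU⟩)
      have e5 := h.ct k' hk' v' hv'
      omega
    · rw [cnt_insert_eq (by omega)]
      have e1 := cnt_erase_le U k' (4 * k + i)
      have e2 := cnt_erase_le (U.erase (4 * k + i)) k' (4 * k + j)
      have e3 := h.ct k' hk' v' hv'
      omega

theorem RelC.cross {K : ℕ} {s : ℕ → Option (Bool × Bool)} {U D : Finset ℕ} (h : RelC K s U D)
    {a b : ℕ} (ha : a ∈ U) (haK : a < 4 * K) (hab : b / 4 ≠ a / 4) :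
    Three K ((U.erase a).erase b) (insert b D) := by
  have hk : a / 4 < K := by omega
  refine ⟨a / 4, hk, ?_⟩
  rw [cnt_insert_eq hab]
  have ea : a = 4 * (a / 4) + a % 4 := by omega
  have e1 : cnt (U.erase a) (a / 4) + 1 = cnt U (a / 4) := by
    have := cnt_erase_lt (S := U) (k := a / 4) (i := a % 4) (by omega) (by rw [← ea]; exact ha)
    rwa [← ea] at this
  have e2 := cnt_erase_le (U.erase a) (a / 4) b
  have e3 := cnt_le U (a / 4)
  cases hs : s (a / 4) with
  | none =>
    have e4 := (h.free _ hk hs).1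
    omega
  | some v =>
    have e4 := h.ct _ hk v hs
    omega

theorem InvC.step {K : ℕ} {Ts : List Term} {U D : Finset ℕ} (h : InvC K Ts U D) {a b : ℕ}
    (ha : a ∈ U) (hb : b ∈ U) (hab : a ≠ b) :
    InvC K Ts ((U.erase a).erase b) (insert a D) ∨
      InvC K Ts ((U.erase a).erase b) (insert b D) := by
  obtain ⟨hU, h⟩ := h
  have hU' : ∀ x ∈ (U.erase a).erase b, x < 4 * K := by
    intro x hx
    simp only [Finset.mem_erase] at hx
    exact hU x hx.2.2
  rcases h with h | ⟨s, hs, hR⟩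
  · rcases h.step ha hb hab with h | h
    · exact Or.inl ⟨hU', Or.inl h⟩
    · exact Or.inr ⟨hU', Or.inl h⟩
  · have hcomm : (U.erase a).erase b = (U.erase b).erase a := Finset.erase_right_comm
    by_cases hk : b / 4 = a / 4
    · set k := a / 4 with hkdef
      have ea : a = 4 * k + a % 4 := by omega
      have eb : b = 4 * k + b % 4 := by omega
      set i := a % 4 with hidef
      set j := b % 4 with hjdef
      have hi : i < 4 := by omega
      have hj : j < 4 := by omega
      clear_value i j k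
      subst ea eb
      have hkK : k < K := by have := hU _ ha; omega
      have hij : i ≠ j := by omega
      cases hsk : s k with
      | none =>
        obtain ⟨w, hw⟩ := match_in hi hj hij
        have hc : ∃ c, ¬ AW K Ts (Function.update s k (some (w, c))) := by
          by_contra hcon
          push Not at hcon
          exact hs (AW.step k w hkK hsk hcon)
        obtain ⟨c, hc⟩ := hc
        obtain ⟨h1, h2⟩ := hw c
        cases hi1 : inP w c i with
        | true =>
          have hj1 : inP w c j = false := by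
            rw [hi1] at h1
            cases h3 : inP w c j with
            | true => rw [h3] at h1; exact absurd rfl h1
            | false => rfl
          exact Or.inr ⟨hU', Or.inr ⟨_, hc, hR.next hkK hi hj hij ha hb hsk hi1 hj1 h2⟩⟩
        | false =>
          have hj1 : inP w c j = true := by
            rw [hi1] at h1
            cases h3 : inP w c j with
            | true => rfl
            | false => rw [h3] at h1; exact absurd rfl h1
          refine Or.inl ⟨hU', Or.inr ⟨_, hc, ?_⟩⟩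
          rw [hcomm]
          exact hR.next hkK hj hi hij.symm hb ha hsk hj1 hi1
            (fun i' hi' j' hj' g1 g2 g3 g4 g5 => h2 i' hi' j' hj' g1 g3 g2 g5 g4)
      | some v =>
        have h1 := hR.pr k hkK v hsk i hi j hj hij ha hb
        cases hi1 : inP v.1 v.2 i with
        | true =>
          have hj1 : inP v.1 v.2 j = false := by
            rw [hi1] at h1
            cases h3 : inP v.1 v.2 j with
            | true => rw [h3] at h1; exact absurd rfl h1
            | false => rfl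
          exact Or.inr ⟨hU', Or.inr ⟨_, hs, hR.fin hkK hi hj hij ha hb hsk hj1⟩⟩
        | false =>
          refine Or.inl ⟨hU', Or.inr ⟨_, hs, ?_⟩⟩
          rw [hcomm]
          exact hR.fin hkK hj hi hij.symm hb ha hsk hi1
    · exact Or.inr ⟨hU', Or.inl (hR.cross ha (hU a ha) hk)⟩

/-- **The hypergraph game and the assignment game are equivalent.** -/
theorem win_iff_aw {K : ℕ} {Ts : List Term} (hTs : ∀ τ ∈ Ts, ∀ l ∈ τ, l.1 < K) :
    Win (TH K Ts) (Finset.range (4 * K)) ∅ ↔ AW K Ts (fun _ => none) := by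
  constructor
  · intro h
    by_contra hcon
    refine not_win (InvC K Ts) (fun U D hI => hI.not_TH hTs) (fun U D a b hI ha hb hab =>
      hI.step ha hb hab) ⟨?_, Or.inr ⟨_, hcon, ?_⟩⟩ h
    · intro x hx
      exact Finset.mem_range.1 hx
    · refine ⟨?_, ?_, ?_, ?_⟩
      · intro k hk _
        exact ⟨by simp [cnt], fun i hi => by rw [Finset.mem_range]; omega⟩
      · intro k _ v hv; exact absurd hv (by simp)
      · intro k _ v hv; exact absurd hv (by simp)
      · intro k _ v hv; exact absurd hv (by simp)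
  · intro h
    refine win_of_aw hTs h ?_
    intro k hk
    refine ⟨fun _ i hi => by rw [Finset.mem_range]; omega, fun v hv => absurd hv (by simp)⟩

end Pool.Agent.V11231.WC
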