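import Mathlib

/-!
# The games in which one player offers pairs
-/

set_option autoImplicit false

namespace Pool.Agent.V11231.WC

/-- Waiter offers pairs of unclaimed vertices; Client takes one vertex of the pair and the other one
goes to Waiter. `Win T U D`: Waiter can force that her set satisfies the property `T` at some point,
where `U` is the set of the unclaimed vertices and `D` is the current set of Waiter. -/
inductive Win (T : Finset ℕ → Prop) : Finset ℕ → Finset ℕ → Prop
  | done {U D : Finset ℕ} : T D → Win T U D
  | round {U D : Finset ℕ} (a b : ℕ) : a ∈ U → b ∈ U → a ≠ b →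
      Win T ((U.erase a).erase b) (insert a D) → Win T ((U.erase a).erase b) (insert b D) →
      Win T U D

theorem Win.mono {T T' : Finset ℕ → Prop} (hT : ∀ D D', D ⊆ D' → T D → T' D')
    {U D : Finset ℕ} (h : Win T U D) : ∀ {U' D' : Finset ℕ}, U ⊆ U' → D ⊆ D' → Win T' U' D' := by
  induction h with
  | done h => exact fun _ hD => Win.done (hT _ _ hD h)
  | round a b ha hb hab _ _ ih1 ih2 =>
    intro U' D' hU hD
    refine Win.round a b (hU ha) (hU hb) hab (ih1 ?_ ?_) (ih2 ?_ ?_)
    · exact Finset.erase_subset_erase _ (Finset.erase_subset_erase _ hU)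
    · exact Finset.insert_subset_insert _ hD
    · exact Finset.erase_subset_erase _ (Finset.erase_subset_erase _ hU)
    · exact Finset.insert_subset_insert _ hD

/-- An invariant which Client can maintain. -/
theorem not_win {T : Finset ℕ → Prop} (I : Finset ℕ → Finset ℕ → Prop)
    (h1 : ∀ U D, I U D → ¬ T D)
    (h2 : ∀ U D a b, I U D → a ∈ U → b ∈ U → a ≠ b →
      I ((U.erase a).erase b) (insert a D) ∨ I ((U.erase a).erase b) (insert b D))
    {U D : Finset ℕ} (h : I U D) : ¬ Win T U D := by
  intro hw
  induction hw with
  | done hT => exact h1 _ _ h hT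
  | round a b ha hb hab _ _ ih1 ih2 =>
    rcases h2 _ _ a b h ha hb hab with h | h
    · exact ih1 h
    · exact ih2 h

end Pool.Agent.V11231.WC
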