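import Pool.Agent.V11231.WC.Defs

/-!
# From hypergraphs to domination
-/

set_option autoImplicit false

namespace Pool.Agent.V11231.WC

/-- the target in the hypergraph -/
def TE (E : List (List ℕ)) (D : Finset ℕ) : Prop := ∀ e ∈ E, ∃ v ∈ e, v ∈ D

/-- the number of copies of an edge -/
def nc (m : ℕ) (E : List (List ℕ)) : ℕ := m + E.length

/-- the number of vertices -/
def tot (m : ℕ) (E : List (List ℕ)) : ℕ := m + E.length * nc m E

/-- adjacency -/
def adjb (m : ℕ) (E : List (List ℕ)) (x y : ℕ) : Bool :=
  (decide (x < m) && (decide (y < m) && !decide (x = y))) ||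
  ((decide (x < m) && (decide (m ≤ y) && decide (x ∈ E.getD ((y - m) / nc m E) []))) ||
  (decide (m ≤ x) && (decide (y < m) && decide (y ∈ E.getD ((x - m) / nc m E) []))))

/-- the graph -/
def gm (m : ℕ) (E : List (List ℕ)) : Mat :=
  (List.range (tot m E)).map fun x => (List.range (tot m E)).map fun y => adjb m E x y

section

variable {m : ℕ} {E : List (List ℕ)}

theorem gm_length : (gm m E).length = tot m E := by simp [gm]

theorem row_gm {x : ℕ} (hx : x < tot m E) :
    (gm m E).getD x [] = (List.range (tot m E)).map fun y => adjb m E x y := by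
  have h : x < (gm m E).length := by rw [gm_length]; exact hx
  rw [List.getD_eq_getElem _ _ h]
  unfold gm
  rw [List.getElem_map, List.getElem_range]

theorem adj_gm {x y : ℕ} (hx : x < tot m E) (hy : y < tot m E) :
    Adj (gm m E) x y ↔ adjb m E x y = true := by
  unfold Adj
  rw [row_gm hx, List.getD_eq_getElem _ _ (by simpa using hy)]
  simp

theorem adjb_iff {x y : ℕ} : adjb m E x y = true ↔ (x < m ∧ y < m ∧ x ≠ y) ∨
    (x < m ∧ m ≤ y ∧ x ∈ E.getD ((y - m) / nc m E) []) ∨
    (m ≤ x ∧ y < m ∧ y ∈ E.getD ((x - m) / nc m E) []) := by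
  unfold adjb
  simp only [Bool.or_eq_true, Bool.and_eq_true, decide_eq_true_eq, Bool.not_eq_true',
    decide_eq_false_iff_not, ne_eq]

theorem isGraph_gm : IsGraph (gm m E) := by
  refine ⟨?_, ?_, ?_⟩
  · intro r hr
    unfold gm at hr
    obtain ⟨x, _, rfl⟩ := List.mem_map.1 hr
    simp [gm]
  · intro x hx y hy h
    rw [gm_length] at hx hy
    rw [adj_gm hx hy, adjb_iff] at h
    rw [adj_gm hy hx, adjb_iff]
    rcases h with ⟨h1, h2, h3⟩ | ⟨h1, h2, h3⟩ | ⟨h1, h2, h3⟩
    · exact Or.inl ⟨h2, h1, h3.symm⟩
    · exact Or.inr (Or.inr ⟨h2, h1, h3⟩)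
    · exact Or.inr (Or.inl ⟨h2, h1, h3⟩)
  · intro x hx h
    rw [gm_length] at hx
    rw [adj_gm hx hx, adjb_iff] at h
    rcases h with ⟨_, _, h3⟩ | ⟨h1, h2, _⟩ | ⟨h1, h2, _⟩
    · exact h3 rfl
    · omega
    · omega

theorem dom_of_TE (hE : ∀ e ∈ E, ∀ v ∈ e, v < m) (hne : E ≠ []) {D D' : Finset ℕ} (hD : D ⊆ D')
    (h : TE E D) : Dominating (gm m E) D' := by
  obtain ⟨e0, E', hE'⟩ := List.exists_cons_of_ne_nil hne
  have hm : m ≤ tot m E := by unfold tot; omega
  intro x hx
  rw [gm_length] at hx
  by_cases hxm : x < m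
  · have he0 : e0 ∈ E := by rw [hE']; simp
    obtain ⟨v, hv, hvD⟩ := h e0 he0
    have hvm := hE e0 he0 v hv
    refine ⟨v, hD hvD, ?_⟩
    by_cases e : v = x
    · exact Or.inl e
    · right
      rw [adj_gm hx (by omega), adjb_iff]
      exact Or.inl ⟨hxm, hvm, fun h => e h.symm⟩
  · have hr : (x - m) / nc m E < E.length := by
      have hpos : 0 < nc m E := by unfold nc; rw [hE']; simp
      rw [Nat.div_lt_iff_lt_mul hpos]
      unfold tot at hx
      omega
    have he : E[(x - m) / nc m E] ∈ E := List.getElem_mem _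
    obtain ⟨v, hv, hvD⟩ := h _ he
    have hvm := hE _ he v hv
    refine ⟨v, hD hvD, Or.inr ?_⟩
    rw [adj_gm hx (by omega), adjb_iff]
    refine Or.inr (Or.inr ⟨by omega, hvm, ?_⟩)
    rw [List.getD_eq_getElem _ _ hr]
    exact hv

/-- the open edges -/
def opn (m : ℕ) (E : List (List ℕ)) (U D : Finset ℕ) : Finset ℕ :=
  (Finset.range E.length).filter fun r => ∀ i < nc m E, m + r * nc m E + i ∈ U ∪ D

/-- the unclaimed copies -/
def cps (m : ℕ) (E : List (List ℕ)) (U : Finset ℕ) (r : ℕ) : Finset ℕ :=
  (Finset.range (nc m E)).filter fun i => m + r * nc m E + i ∈ U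

/-- the vertices of the hypergraph in a set -/
def low (m : ℕ) (S : Finset ℕ) : Finset ℕ := S.filter (· < m)

/-- the invariant of Staller -/
structure Jv (m : ℕ) (E : List (List ℕ)) (U D : Finset ℕ) : Prop where
  nw : ¬ Win (TE E) (low m U) (low m D)
  dj : ∀ x ∈ U, x ∉ D
  lt : ∀ x ∈ U, x < tot m E
  cp : ∀ r ∈ opn m E U D, (low m U).card + (opn m E U D).card ≤ (cps m E U r).card

theorem low_erase_lt {S : Finset ℕ} {a : ℕ} : low m (S.erase a) = (low m S).erase a := by
  ext x
  simp only [low, Finset.mem_filter, Finset.mem_erase]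
  tauto

theorem low_erase_ge {S : Finset ℕ} {a : ℕ} (ha : m ≤ a) : low m (S.erase a) = low m S := by
  rw [low_erase_lt, Finset.erase_eq_of_notMem]
  simp only [low, Finset.mem_filter]
  omega

theorem low_insert_lt {S : Finset ℕ} {a : ℕ} (ha : a < m) :
    low m (insert a S) = insert a (low m S) := by
  ext x
  simp only [low, Finset.mem_filter, Finset.mem_insert]
  constructor
  · rintro ⟨h | h, h'⟩
    · exact Or.inl h
    · exact Or.inr ⟨h, h'⟩
  · rintro (h | ⟨h, h'⟩)
    · subst h; exact ⟨Or.inl rfl, ha⟩
    · exact ⟨Or.inr h, h'⟩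

theorem low_insert_ge {S : Finset ℕ} {a : ℕ} (ha : m ≤ a) : low m (insert a S) = low m S := by
  ext x
  simp only [low, Finset.mem_filter, Finset.mem_insert]
  constructor
  · rintro ⟨h | h, h'⟩
    · omega
    · exact ⟨h, h'⟩
  · rintro ⟨h, h'⟩
    exact ⟨Or.inr h, h'⟩

theorem opn_sub {U D : Finset ℕ} {a b : ℕ} (hb : b ∈ U) :
    opn m E ((U.erase a).erase b) (insert b D) ⊆ opn m E U D := by
  intro r hr
  simp only [opn, Finset.mem_filter, Finset.mem_range, Finset.mem_union, Finset.mem_erase,
    Finset.mem_insert] at hr ⊢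
  refine ⟨hr.1, fun i hi => ?_⟩
  rcases hr.2 i hi with h | h | h
  · exact Or.inl h.2.2
  · left; rw [h]; exact hb
  · exact Or.inr h

/-- the edge of a copy -/
def ed (m : ℕ) (E : List (List ℕ)) (a : ℕ) : ℕ := (a - m) / nc m E

theorem eq_ed {a : ℕ} (ha : m ≤ a) : a = m + ed m E a * nc m E + (a - m) % nc m E := by
  unfold ed
  have := Nat.div_add_mod (a - m) (nc m E)
  rw [Nat.mul_comm] at this
  omega

theorem ed_eq {r i : ℕ} (hi : i < nc m E) : ed m E (m + r * nc m E + i) = r := by
  unfold ed
  have : m + r * nc m E + i - m = i + r * nc m E := by omega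
  rw [this, Nat.add_mul_div_right _ _ (by omega), Nat.div_eq_of_lt hi, zero_add]

theorem closed_of {U D : Finset ℕ} {a b : ℕ} (hN : 0 < nc m E) (ha : m ≤ a) (haD : a ∉ D)
    (hab : a ≠ b) : ed m E a ∉ opn m E ((U.erase a).erase b) (insert b D) := by
  intro h
  simp only [opn, Finset.mem_filter, Finset.mem_range, Finset.mem_union, Finset.mem_erase,
    Finset.mem_insert] at h
  have h1 := h.2 ((a - m) % nc m E) (Nat.mod_lt _ hN)
  rw [← eq_ed ha] at h1
  rcases h1 with h1 | h1 | h1
  · exact h1.2.1 rfl
  · exact hab h1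
  · exact haD h1

theorem cps_erase_other {U : Finset ℕ} {a r : ℕ} (h : a < m ∨ ed m E a ≠ r) :
    cps m E (U.erase a) r = cps m E U r := by
  ext i
  simp only [cps, Finset.mem_filter, Finset.mem_range, Finset.mem_erase]
  constructor
  · rintro ⟨h1, _, h2⟩; exact ⟨h1, h2⟩
  · rintro ⟨h1, h2⟩
    refine ⟨h1, ?_, h2⟩
    intro e
    rcases h with h | h
    · omega
    · rw [← e, ed_eq h1] at h
      exact h rfl

theorem cps_erase_le {U : Finset ℕ} {a r : ℕ} :
    (cps m E U r).card ≤ (cps m E (U.erase a) r).card + 1 := by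
  have : cps m E U r ⊆ insert (a - (m + r * nc m E)) (cps m E (U.erase a) r) := by
    intro i hi
    simp only [cps, Finset.mem_filter, Finset.mem_range, Finset.mem_erase,
      Finset.mem_insert] at hi ⊢
    by_cases e : m + r * nc m E + i = a
    · left; omega
    · right; exact ⟨hi.1, e, hi.2⟩
  exact (Finset.card_le_card this).trans (Finset.card_insert_le _ _)

theorem Jv.lt' {U D : Finset ℕ} (h : Jv m E U D) {a b : ℕ} :
    ∀ x ∈ (U.erase a).erase b, x < tot m E := fun x hx =>
  h.lt x (Finset.mem_of_mem_erase (Finset.mem_of_mem_erase hx))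

theorem Jv.dj' {U D : Finset ℕ} (h : Jv m E U D) {a b : ℕ} :
    ∀ x ∈ (U.erase a).erase b, x ∉ insert b D := by
  intro x hx
  simp only [Finset.mem_erase] at hx
  rw [Finset.mem_insert, not_or]
  exact ⟨hx.1, h.dj x hx.2.2⟩

/-- Staller takes a vertex of the hypergraph, Dominator gets a copy. -/
theorem Jv.mixed {U D : Finset ℕ} (h : Jv m E U D) {a b : ℕ} (ha : a ∈ U) (hb : b ∈ U)
    (ham : a < m) (hbm : m ≤ b) : Jv m E ((U.erase a).erase b) (insert b D) := by
  have hlow : low m ((U.erase a).erase b) = (low m U).erase a := by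
    rw [low_erase_ge hbm, low_erase_lt]
  refine ⟨?_, h.dj', h.lt', ?_⟩
  · rw [hlow, low_insert_ge hbm]
    intro hw
    exact h.nw (hw.mono (fun D D' hD hT e he => by
      obtain ⟨v, hv, hvD⟩ := hT e he
      exact ⟨v, hv, hD hvD⟩) (Finset.erase_subset _ _) (Finset.Subset.refl _))
  · intro r hr
    have hsub := opn_sub (m := m) (E := E) (U := U) (D := D) (a := a) hb
    have h1 := h.cp r (hsub hr)
    have h2 := Finset.card_le_card hsub
    have h3 : (low m ((U.erase a).erase b)).card + 1 = (low m U).card := by
      rw [hlow, Finset.card_erase_of_mem (by simp [low, ha, ham])]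
      have : 0 < (low m U).card := Finset.card_pos.2 ⟨a, by simp [low, ha, ham]⟩
      omega
    have h4 : cps m E (U.erase a) r = cps m E U r := cps_erase_other (Or.inl ham)
    have h5 := cps_erase_le (m := m) (E := E) (U := U.erase a) (a := b) (r := r)
    rw [h4] at h5
    omega

/-- Staller takes the copy `a` and Dominator gets the copy `b`. -/
theorem Jv.copies {U D : Finset ℕ} (h : Jv m E U D) {a b : ℕ} (ha : a ∈ U) (hb : b ∈ U)
    (hab : a ≠ b) (ham : m ≤ a) (hbm : m ≤ b)
    (hc : ed m E a ∈ opn m E U D ∨ ed m E b ∉ opn m E U D ∨ ed m E b = ed m E a) :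
    Jv m E ((U.erase a).erase b) (insert b D) := by
  have hlow : low m ((U.erase a).erase b) = low m U := by
    rw [low_erase_ge hbm, low_erase_ge ham]
  refine ⟨?_, h.dj', h.lt', ?_⟩
  · rw [hlow, low_insert_ge hbm]
    exact h.nw
  · intro r hr
    have hN : 0 < nc m E := by
      have : r ∈ Finset.range E.length := (Finset.mem_filter.1 hr).1
      have := Finset.mem_range.1 this
      unfold nc; omega
    have hsub := opn_sub (m := m) (E := E) (U := U) (D := D) (a := a) hb
    have h1 := h.cp r (hsub hr)
    have h2 := Finset.card_le_card hsub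
    have hcl := closed_of (m := m) (E := E) (U := U) hN ham (h.dj a ha) hab
    have hra : ed m E a ≠ r := by
      rintro rfl
      exact hcl hr
    have h4 : cps m E (U.erase a) r = cps m E U r := cps_erase_other (Or.inr hra)
    rw [hlow]
    by_cases hrb : ed m E b = r
    · rcases hc with hc | hc | hc
      · have h3 : opn m E ((U.erase a).erase b) (insert b D) ⊆ (opn m E U D).erase (ed m E a) := by
          intro x hx
          rw [Finset.mem_erase]
          refine ⟨?_, hsub hx⟩
          rintro rfl
          exact hcl hx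
        have h5 := Finset.card_le_card h3
        rw [Finset.card_erase_of_mem hc] at h5
        have h6 : 0 < (opn m E U D).card := Finset.card_pos.2 ⟨_, hc⟩
        have h7 := cps_erase_le (m := m) (E := E) (U := U.erase a) (a := b) (r := r)
        rw [h4] at h7
        omega
      · rw [hrb] at hc
        exact absurd (hsub hr) hc
      · exact absurd (hc.symm.trans hrb) hra
    · have h5 : cps m E ((U.erase a).erase b) r = cps m E (U.erase a) r :=
        cps_erase_other (Or.inr hrb)
      rw [h5, h4]
      omega

theorem Jv.step {U D : Finset ℕ} (h : Jv m E U D) {a b : ℕ} (ha : a ∈ U) (hb : b ∈ U)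
    (hab : a ≠ b) : Jv m E ((U.erase a).erase b) (insert a D) ∨
      Jv m E ((U.erase a).erase b) (insert b D) := by
  have hcomm : (U.erase a).erase b = (U.erase b).erase a := Finset.erase_right_comm
  by_cases ham : a < m
  · by_cases hbm : b < m
    · have hcopy : ∀ x, (∀ y, x = y → y = a ∨ y = b) → Jv m E U D →
          ¬ Win (TE E) (low m ((U.erase a).erase b)) (low m (insert x D)) →
          Jv m E ((U.erase a).erase b) (insert x D) := by
        intro x hx hJ hnw
        have hxab := hx x rfl
        refine ⟨hnw, ?_, h.lt', ?_⟩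
        · intro y hy
          simp only [Finset.mem_erase] at hy
          rw [Finset.mem_insert, not_or]
          refine ⟨?_, h.dj y hy.2.2⟩
          rintro rfl
          rcases hxab with e | e
          · exact hy.2.1 e
          · exact hy.1 e
        · intro r hr
          have hsub : opn m E ((U.erase a).erase b) (insert x D) ⊆ opn m E U D := by
            rcases hxab with e | e
            · subst e
              rw [hcomm]
              exact opn_sub ha
            · subst e
              exact opn_sub hb
          have h1 := h.cp r (hsub hr)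
          have h2 := Finset.card_le_card hsub
          have h3 : cps m E ((U.erase a).erase b) r = cps m E U r := by
            rw [cps_erase_other (Or.inl hbm), cps_erase_other (Or.inl ham)]
          have h4 : (low m ((U.erase a).erase b)).card ≤ (low m U).card := by
            apply Finset.card_le_card
            intro y hy
            simp only [low, Finset.mem_filter, Finset.mem_erase] at hy ⊢
            exact ⟨hy.1.2.2, hy.2⟩
          rw [h3]
          omega
      by_contra hcon
      push Not at hcon
      apply h.nw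
      have hlow : low m ((U.erase a).erase b) = ((low m U).erase a).erase b := by
        rw [low_erase_lt, low_erase_lt]
      refine Win.round a b (by simp [low, ha, ham]) (by simp [low, hb, hbm]) hab ?_ ?_
      · by_contra hw
        refine hcon.1 (hcopy a (fun y e => Or.inl e.symm) h ?_)
        rw [hlow, low_insert_lt ham]
        exact hw
      · by_contra hw
        refine hcon.2 (hcopy b (fun y e => Or.inr e.symm) h ?_)
        rw [hlow, low_insert_lt hbm]
        exact hw
    · exact Or.inr (h.mixed ha hb ham (by omega))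
  · by_cases hbm : b < m
    · left
      rw [hcomm]
      exact h.mixed hb ha hbm (by omega)
    · by_cases hc : ed m E a ∈ opn m E U D
      · exact Or.inr (h.copies ha hb hab (by omega) (by omega) (Or.inl hc))
      · left
        rw [hcomm]
        exact h.copies hb ha hab.symm (by omega) (by omega) (Or.inr (Or.inl hc))

theorem Jv.not_dom {U D : Finset ℕ} (hE : ∀ e ∈ E, ∀ v ∈ e, v < m) (h : Jv m E U D) :
    ¬ Dominating (gm m E) D := by
  intro hdom
  have h1 : ¬ TE E (low m D) := fun hT => h.nw (Win.done hT)
  unfold TE at h1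
  push Not at h1
  obtain ⟨e, he, h1⟩ := h1
  obtain ⟨r, hr, rfl⟩ := List.getElem_of_mem he
  have hN : 0 < nc m E := by unfold nc; omega
  have hx : ∃ i < nc m E, m + r * nc m E + i ∉ D := by
    by_cases ho : r ∈ opn m E U D
    · have h2 := h.cp r ho
      have h3 : 0 < (opn m E U D).card := Finset.card_pos.2 ⟨_, ho⟩
      obtain ⟨i, hi⟩ := Finset.card_pos.1 (show 0 < (cps m E U r).card by omega)
      simp only [cps, Finset.mem_filter, Finset.mem_range] at hi
      exact ⟨i, hi.1, h.dj _ hi.2⟩
    · simp only [opn, Finset.mem_filter, Finset.mem_range, not_and, Finset.mem_union] at ho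
      have h2 := ho hr
      push Not at h2
      obtain ⟨i, hi, _, h3⟩ := h2
      exact ⟨i, hi, h3⟩
  obtain ⟨i, hi, hxD⟩ := hx
  have hxt : m + r * nc m E + i < tot m E := by
    unfold tot
    have : (r + 1) * nc m E ≤ E.length * nc m E := Nat.mul_le_mul_right _ hr
    nlinarith
  obtain ⟨y, hyD, hy⟩ := hdom _ (by rw [gm_length]; exact hxt)
  rcases hy with rfl | hy
  · exact hxD hyD
  · by_cases hyt : y < tot m E
    · rw [adj_gm hxt hyt, adjb_iff] at hy
      rcases hy with ⟨h2, _, _⟩ | ⟨h2, _, _⟩ | ⟨_, h3, h4⟩
      · omega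
      · omega
      · have h5 : (m + r * nc m E + i - m) / nc m E = r := ed_eq hi
        rw [h5, List.getD_eq_getElem _ _ hr] at h4
        refine h1 y h4 ?_
        simp only [low, Finset.mem_filter]
        exact ⟨hyD, h3⟩
    · exfalso
      unfold Adj at hy
      rw [row_gm hxt, List.getD_eq_default _ _ (by simpa using hyt)] at hy
      exact absurd hy (by simp)

theorem dominatorWins_gm (hE : ∀ e ∈ E, ∀ v ∈ e, v < m) (hne : E ≠ []) :
    DominatorWins (gm m E) ↔ Win (TE E) (Finset.range m) ∅ := by
  unfold DominatorWins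
  rw [gm_length]
  constructor
  · intro h
    by_contra hcon
    refine not_win (Jv m E) (fun U D hJ => hJ.not_dom hE)
      (fun U D a b hJ ha hb hab => hJ.step ha hb hab) ?_ h
    have hlow : low m (Finset.range (tot m E)) = Finset.range m := by
      ext x
      simp only [low, Finset.mem_filter, Finset.mem_range]
      unfold tot
      constructor
      · exact fun h => h.2
      · intro h; exact ⟨by omega, h⟩
    refine ⟨?_, fun x _ => by simp, fun x hx => Finset.mem_range.1 hx, ?_⟩
    · rw [hlow]
      exact hcon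
    · intro r hr
      rw [hlow, Finset.card_range]
      have h1 : (opn m E (Finset.range (tot m E)) ∅).card ≤ E.length := by
        refine (Finset.card_filter_le _ _).trans ?_
        simp
      have h2 : cps m E (Finset.range (tot m E)) r = Finset.range (nc m E) := by
        unfold cps
        rw [Finset.filter_true_of_mem]
        intro i hi
        rw [Finset.mem_range] at hi ⊢
        have hrl : r < E.length := Finset.mem_range.1 (Finset.mem_filter.1 hr).1
        unfold tot
        have : (r + 1) * nc m E ≤ E.length * nc m E := Nat.mul_le_mul_right _ hrl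
        nlinarith
      rw [h2, Finset.card_range]
      have : nc m E = m + E.length := rfl
      omega
  · intro h
    refine h.mono (fun D D' hD hT => dom_of_TE hE hne hD hT) ?_ (Finset.Subset.refl _)
    intro x hx
    rw [Finset.mem_range] at hx ⊢
    unfold tot
    omega

end

end Pool.Agent.V11231.WC
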