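import Pool.Agent.V11231.WC.Red
import Pool.Agent.H656R2.AK.AKIn
import Pool.Agent.NPC.Dec

/-!
# The Waiter-Client domination game is in `PSPACE`
-/

set_option autoImplicit false

namespace Pool.Agent.V11231.WC

open Pool.Agent.NPC Pool.Agent.H623R2.PS Pool.Agent.H656R2.AK

/-- Positions: the matrix, a flag (the game goes on), the unclaimed vertices, the vertices of
Dominator, and the offered vertices. -/
abbrev Ps : Type := Mat × Bool × List ℕ × List ℕ × List ℕ

/-- the test for dominating sets -/
def domb (M : Mat) (D : List ℕ) : Bool :=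
  (List.range M.length).all fun x => D.any fun y => decide (y = x) || ent M x y

theorem domb_iff {M : Mat} {D : List ℕ} : domb M D = true ↔ Dominating M D.toFinset := by
  unfold domb Dominating Adj ent
  simp only [List.all_eq_true, List.mem_range, List.any_eq_true, Bool.or_eq_true,
    decide_eq_true_eq, List.mem_toFinset]

/-- the offers -/
def offers (b : Ps) : List Ps :=
  ((b.2.2.1 ×ˢ b.2.2.1).filter fun p => !decide (p.1 = p.2)).map fun p =>
    (b.1, true, b.2.2.1.filter (fun x => !decide (x = p.1) && !decide (x = p.2)), b.2.2.2.1,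
      [p.1, p.2])

/-- the moves -/
def mvs (b : Ps) : List Ps :=
  bif b.2.1 then
    (bif decide (b.2.2.2.2 = []) then
      (bif domb b.1 b.2.2.2.1 then [(b.1, false, b.2.2.1, b.2.2.2.1, [])] else offers b)
    else b.2.2.2.2.map fun a => (b.1, true, b.2.2.1, a :: b.2.2.2.1, []))
  else []

theorem mem_offers {b b' : Ps} : b' ∈ offers b ↔ ∃ u ∈ b.2.2.1, ∃ v ∈ b.2.2.1, u ≠ v ∧
    b' = (b.1, true, b.2.2.1.filter (fun x => !decide (x = u) && !decide (x = v)), b.2.2.2.1,
      [u, v]) := by
  unfold offers
  rw [List.mem_map]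
  constructor
  · rintro ⟨⟨u, v⟩, h, rfl⟩
    rw [List.mem_filter, mem_prod] at h
    exact ⟨u, h.1.1, v, h.1.2, by simpa using h.2, rfl⟩
  · rintro ⟨u, hu, v, hv, h, rfl⟩
    exact ⟨(u, v), List.mem_filter.2 ⟨mem_prod.2 ⟨hu, hv⟩, by simpa using h⟩, rfl⟩

theorem toFinset_filter {U : List ℕ} {u v : ℕ} :
    (U.filter (fun x => !decide (x = u) && !decide (x = v))).toFinset =
      (U.toFinset.erase u).erase v := by
  ext x
  simp only [List.mem_toFinset, List.mem_filter, Finset.mem_erase, Bool.and_eq_true,
    Bool.not_eq_true', decide_eq_false_iff_not]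
  tauto

theorem not_W_dead {b : Ps} (h : b.2.1 = false) : ¬ W (mvL mvs) b := by
  intro hw
  cases hw with
  | mk a c hc _ =>
    unfold mvL mvs at hc
    rw [h] at hc
    simp at hc

theorem win_W {M : Mat} {U D : Finset ℕ} (h : Win (Dominating M) U D) :
    ∀ {Ul Dl : List ℕ}, Ul.toFinset = U → Dl.toFinset = D →
      W (mvL mvs) (M, true, Ul, Dl, []) := by
  have hdone : ∀ {Ul Dl : List ℕ}, domb M Dl = true → W (mvL mvs) (M, true, Ul, Dl, []) := by
    intro Ul Dl hd
    refine W.mk _ (M, false, Ul, Dl, []) ?_ ?_
    · unfold mvL mvs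
      simp [hd]
    · intro c hc
      unfold mvL mvs at hc
      simp at hc
  induction h with
  | done hT =>
    intro Ul Dl _ hD
    apply hdone
    rw [domb_iff, hD]
    exact hT
  | @round U D a b ha hb hab _ _ ih1 ih2 =>
    intro Ul Dl hU hD
    by_cases hd : domb M Dl = true
    · exact hdone hd
    · rw [Bool.not_eq_true] at hd
      refine W.mk _ (M, true, Ul.filter (fun x => !decide (x = a) && !decide (x = b)), Dl,
        [a, b]) ?_ ?_
      · have h1 : mvs (M, true, Ul, Dl, []) = offers (M, true, Ul, Dl, []) := by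
          unfold mvs
          simp [hd]
        unfold mvL
        rw [h1, mem_offers]
        refine ⟨a, ?_, b, ?_, hab, rfl⟩
        · rw [← hU, List.mem_toFinset] at ha
          exact ha
        · rw [← hU, List.mem_toFinset] at hb
          exact hb
      · intro c hc
        unfold mvL mvs at hc
        simp only [cond_true, List.cons_ne_nil, decide_false, cond_false, List.map_cons,
          List.map_nil, List.mem_cons, List.not_mem_nil, or_false, reduceCtorEq] at hc
        rcases hc with rfl | rfl
        · exact ih1 (by rw [toFinset_filter, hU]) (by rw [List.toFinset_cons, hD])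
        · exact ih2 (by rw [toFinset_filter, hU]) (by rw [List.toFinset_cons, hD])

theorem W_win {M : Mat} {b : Ps} (h : W (mvL mvs) b) : ∀ {U D : List ℕ}, b = (M, true, U, D, []) →
    Win (Dominating M) U.toFinset D.toFinset := by
  induction h with
  | mk b b' hm _ ih =>
    rintro U D rfl
    by_cases hd : domb M D = true
    · exact Win.done (domb_iff.1 hd)
    · rw [Bool.not_eq_true] at hd
      have h1 : mvs (M, true, U, D, []) = offers (M, true, U, D, []) := by
        unfold mvs
        simp [hd]
      unfold mvL at hm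
      rw [h1, mem_offers] at hm
      obtain ⟨u, hu, v, hv, huv, rfl⟩ := hm
      simp only at hu hv
      have hmv : ∀ x ∈ [u, v], mvL mvs (M, true, U.filter (fun x => !decide (x = u) &&
          !decide (x = v)), D, [u, v]) (M, true, U.filter (fun x => !decide (x = u) &&
          !decide (x = v)), x :: D, []) := by
        intro x hx
        unfold mvL mvs
        simp only [cond_true, List.cons_ne_nil, decide_false, cond_false, List.mem_map,
          reduceCtorEq]
        exact ⟨x, hx, rfl⟩
      refine Win.round u v (List.mem_toFinset.2 hu) (List.mem_toFinset.2 hv) huv ?_ ?_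
      · have := ih _ (hmv u (by simp)) rfl
        rwa [toFinset_filter, List.toFinset_cons] at this
      · have := ih _ (hmv v (by simp)) rfl
        rwa [toFinset_filter, List.toFinset_cons] at this

theorem toFinset_range (n : ℕ) : (List.range n).toFinset = Finset.range n := by
  ext x; simp

theorem W_iff {M : Mat} : W (mvL mvs) (M, true, List.range M.length, [], []) ↔
    DominatorWins M := by
  unfold DominatorWins
  constructor
  · intro h
    have := W_win (M := M) h rfl
    rwa [toFinset_range] at this
  · intro h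
    exact win_W h (toFinset_range _) rfl

theorem valid_iff {M : Mat} : valid M = true ↔ IsGraph M := by
  unfold valid IsGraph Adj ent
  simp only [Bool.and_eq_true, List.all_eq_true, List.mem_range, decide_eq_true_eq,
    Bool.not_eq_true']
  constructor
  · rintro ⟨h1, h2⟩
    refine ⟨h1, fun x hx y hy hxy => ?_, fun x hx => ?_⟩
    · rw [← (h2 x hx).2 y hy]; exact hxy
    · rw [(h2 x hx).1]; simp
  · rintro ⟨h1, h2, h3⟩
    refine ⟨h1, fun x hx => ⟨by simpa using h3 x hx, fun y hy => ?_⟩⟩
    rw [Bool.eq_iff_iff]
    exact ⟨h2 x hx y hy, h2 y hy x hx⟩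

/-! ### Polynomial time -/

theorem poly_domb {α : Type} [TEnc α] {M : α → Mat} {D : α → List ℕ} (hM : NPC.Poly M)
    (hD : NPC.Poly D) : NPC.Poly (fun a => domb (M a) (D a)) := by
  unfold domb
  refine NPC.Poly.all (l := fun a => List.range (M a).length)
    (p := fun a x => (D a).any fun y => decide (y = x) || ent (M a) x y)
    (UPoly.length hM).range ?_
  have hM' : NPC.Poly (fun p : (α × ℕ) × ℕ => M p.1.1) :=
    hM.comp (NPC.Poly.fst (NPC.Poly.fst NPC.Poly.id))
  refine NPC.Poly.any (l := fun p : α × ℕ => D p.1)
    (p := fun p y => decide (y = p.2) || ent (M p.1) p.2 y)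
    (hD.comp (NPC.Poly.fst NPC.Poly.id)) ?_
  exact NPC.Poly.or (by fun_prop) (poly_ent hM' (by fun_prop) (by fun_prop))

theorem poly_offers : NPC.Poly offers := by
  have h1 : NPC.Poly (fun b : Ps => (b.2.2.1 ×ˢ b.2.2.1).filter fun p => !decide (p.1 = p.2)) :=
    NPC.Poly.filter (l := fun b : Ps => b.2.2.1 ×ˢ b.2.2.1)
      (p := fun _ p => !decide (p.1 = p.2)) (by fun_prop) (by fun_prop)
  refine NPC.Poly.map (F := fun (b : Ps) (p : ℕ × ℕ) =>
    (b.1, true, b.2.2.1.filter (fun x => !decide (x = p.1) && !decide (x = p.2)), b.2.2.2.1,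
      [p.1, p.2])) h1 ?_
  have h2 : NPC.Poly (fun q : Ps × (ℕ × ℕ) => q.1.2.2.1.filter
      fun x => !decide (x = q.2.1) && !decide (x = q.2.2)) :=
    NPC.Poly.filter (l := fun q : Ps × (ℕ × ℕ) => q.1.2.2.1)
      (p := fun q x => !decide (x = q.2.1) && !decide (x = q.2.2)) (by fun_prop) (by fun_prop)
  fun_prop

theorem poly_mvs : NPC.Poly mvs := by
  unfold mvs
  have h1 : NPC.Poly (fun b : Ps => domb b.1 b.2.2.2.1) := poly_domb (by fun_prop) (by fun_prop)
  have h2 := poly_offers
  fun_prop

theorem sz_mem {a : ℕ} : ∀ {P : List ℕ}, a ∈ P → sz a + 2 ≤ sz P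
  | [], h => by simp at h
  | b :: P, h => by
    rw [sz_list_cons]
    rcases List.mem_cons.1 h with rfl | h
    · have := sz_pos P
      omega
    · have := sz_mem h
      omega

theorem sz_filter_two {U : List ℕ} {u v : ℕ} (hu : u ∈ U) (hv : v ∈ U) (huv : u ≠ v) :
    sz (U.filter (fun x => !decide (x = u) && !decide (x = v))) + sz u + sz v + 2 ≤ sz U := by
  have key : ∀ (w : ℕ) (L : List ℕ), w ∈ L →
      sz (L.filter fun x => !decide (x = w)) + sz w + 1 ≤ sz L := by
    intro w L
    induction L with
    | nil => intro h; simp at h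
    | cons a L ih =>
      intro h
      by_cases haw : a = w
      · subst haw
        rw [List.filter_cons_of_neg (by simp), sz_list_cons]
        have := sz_filter_le' (fun x => !decide (x = a)) L
        omega
      · rw [List.filter_cons_of_pos (by simpa using haw), sz_list_cons, sz_list_cons]
        have := ih (by rcases List.mem_cons.1 h with h | h; exact absurd h.symm haw; exact h)
        omega
  have e : U.filter (fun x => !decide (x = u) && !decide (x = v)) =
      (U.filter fun x => !decide (x = v)).filter fun x => !decide (x = u) := by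
    rw [List.filter_filter]
  rw [e]
  have h1 := key v U hv
  have h2 := key u (U.filter fun x => !decide (x = v)) (by
    rw [List.mem_filter]; exact ⟨hu, by simpa using huv⟩)
  omega

/-- the initial position -/
def psInit (x : List Bool) : Ps :=
  ((unbits Mat x).getD [[true]], true, List.range ((unbits Mat x).getD [[true]]).length, [], [])

theorem mvs_cases {b b' : Ps} (h : b' ∈ mvs b) :
    (b.2.1 = true ∧ b' = (b.1, false, b.2.2.1, b.2.2.2.1, []) ∧ b.2.2.2.2 = []) ∨
    (b.2.1 = true ∧ b.2.2.2.2 = [] ∧ b' ∈ offers b) ∨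
    (b.2.1 = true ∧ ∃ a ∈ b.2.2.2.2, b' = (b.1, true, b.2.2.1, a :: b.2.2.2.1, [])) := by
  unfold mvs at h
  cases h1 : b.2.1 with
  | false => rw [h1] at h; simp at h
  | true =>
    rw [h1, cond_true] at h
    by_cases h2 : b.2.2.2.2 = []
    · rw [decide_eq_true h2, cond_true] at h
      cases h3 : domb b.1 b.2.2.2.1 with
      | true =>
        rw [h3, cond_true, List.mem_singleton] at h
        exact Or.inl ⟨rfl, h, h2⟩
      | false =>
        rw [h3, cond_false] at h
        exact Or.inr (Or.inl ⟨rfl, h2, h⟩)
    · rw [decide_eq_false h2, cond_false, List.mem_map] at h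
      obtain ⟨a, ha, rfl⟩ := h
      exact Or.inr (Or.inr ⟨rfl, a, ha, rfl⟩)

theorem wcDom_mem : InPSPACE (lang WCDom) := by
  have hdec : NPC.Poly (fun x : List Bool => (unbits Mat x).getD [[true]]) :=
    NPC.Poly.optGetD poly_unbits (NPC.Poly.const [[true]])
  have hlen : UPoly (fun x : List Bool => ((unbits Mat x).getD [[true]]).length) :=
    UPoly.length hdec
  have hinit : NPC.Poly psInit :=
    NPC.Poly.pair hdec (NPC.Poly.pair (NPC.Poly.const true) (NPC.Poly.pair hlen.range
      (NPC.Poly.const ([], []))))
  refine inPSPACE_of_game hinit (good := fun b => valid b.1)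
    (poly_valid.comp (NPC.Poly.fst NPC.Poly.id)) poly_mvs ?_
    (w := fun x => ((unbits Mat x).getD [[true]]).length *
      ((unbits Mat x).getD [[true]]).length +
      (3 * ((unbits Mat x).getD [[true]]).length + 10)) ?_
    (fun x b => b.2.2.1.length ≤ ((unbits Mat x).getD [[true]]).length ∧
      b.2.2.2.2.length ≤ 2)
    (fun b => 3 * b.2.2.1.length + b.2.2.2.2.length + (if b.2.1 = true then 1 else 0)) ?_ ?_ ?_ ?_
  · intro b b' hb'
    obtain ⟨M, f, U, D, P⟩ := b
    rcases mvs_cases hb' with ⟨h1, rfl, h2⟩ | ⟨h1, h2, h⟩ | ⟨h1, a, ha, rfl⟩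
    · simp only at h1 h2
      subst h1 h2
      simp
    · simp only at h1 h2
      subst h1 h2
      rw [mem_offers] at h
      obtain ⟨u, hu, v, hv, huv, rfl⟩ := h
      simp only at hu hv
      have := sz_filter_two hu hv huv
      simp only [sz_pair, sz_list_cons, sz_list_nil]
      omega
    · simp only at h1 ha
      subst h1
      have := sz_mem ha
      simp only [sz_pair, sz_list_cons, sz_list_nil]
      omega
  · exact (hlen.mul hlen).add ((UPoly.mul (UPoly.const 3) hlen).add (UPoly.const 10))
  · intro x
    simp [psInit]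
  · rintro x b ⟨hb1, hb2⟩ b' hb'
    rcases mvs_cases hb' with ⟨h1, rfl, h2⟩ | ⟨h1, h2, h⟩ | ⟨h1, a, ha, rfl⟩
    · refine ⟨⟨hb1, by simp⟩, ?_⟩
      simp [h1, h2]
    · rw [mem_offers] at h
      obtain ⟨u, hu, v, hv, huv, rfl⟩ := h
      have h3 : (b.2.2.1.filter fun x => !decide (x = u) && !decide (x = v)).length <
          b.2.2.1.length := by
        rw [List.length_filter_lt_length_iff_exists]
        exact ⟨u, hu, by simp⟩
      refine ⟨⟨by simp only; omega, by simp⟩, ?_⟩
      simp only [h1, h2, List.length_cons, List.length_nil, if_true]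
      omega
    · have h3 : 0 < b.2.2.2.2.length := List.length_pos_of_mem ha
      refine ⟨⟨hb1, by simp⟩, ?_⟩
      simp only [h1, List.length_nil, if_true]
      omega
  · rintro x b ⟨hb1, hb2⟩
    have h1 : (offers b).length ≤ b.2.2.1.length * b.2.2.1.length := by
      unfold offers
      rw [List.length_map]
      refine (List.length_filter_le _ _).trans ?_
      rw [List.length_product]
    have h2 : b.2.2.1.length * b.2.2.1.length ≤ ((unbits Mat x).getD [[true]]).length *
        ((unbits Mat x).getD [[true]]).length := Nat.mul_le_mul hb1 hb1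
    have h3 : (mvs b).length ≤ (offers b).length + 2 := by
      unfold mvs
      cases b.2.1
      · simp
      · by_cases h2 : b.2.2.2.2 = []
        · rw [decide_eq_true h2]
          cases domb b.1 b.2.2.2.1 <;> simp
        · rw [decide_eq_false h2]
          simp only [cond_true, cond_false, List.length_map]
          omega
    constructor
    · omega
    · split_ifs <;> omega
  · intro x
    rw [mem_lang_iff]
    unfold psInit
    simp only
    rw [W_iff]
    constructor
    · rintro ⟨M, hM, h⟩
      rw [hM, Option.getD_some]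
      exact ⟨valid_iff.2 h.1, h.2⟩
    · intro h
      cases hx : unbits Mat x with
      | none =>
        rw [hx, Option.getD_none] at h
        exact absurd h.1 (by decide)
      | some M =>
        rw [hx, Option.getD_some] at h
        exact ⟨M, rfl, valid_iff.1 h.1, h.2⟩

theorem wcDom_complete : PSPACEComplete (lang WCDom) := ⟨wcDom_mem, wcDom_hard⟩

end Pool.Agent.V11231.WC
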