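import Pool.Agent.V11231.WC.Graph
import Pool.Agent.V11231.WC.AGQ
import Pool.Agent.V11231.Util

/-!
# The reduction to the Waiter-Client domination game
-/

set_option autoImplicit false

namespace Pool.Agent.V11231.WC

open Pool.Agent.NPC Pool.Agent.H623R2.PS Pool.Agent.H656R2.AK Pool.Agent.V11231.Q3

/-- the edge of a term -/
def het (τ : Term) : List ℕ :=
  τ.flatMap fun l => ((List.range 4).filter fun i => inP l.2.1 l.2.2 i).map fun i => 4 * l.1 + i

/-- the edges with three vertices of a gadget -/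
def heg (k : ℕ) : List (List ℕ) :=
  (List.range 4).map fun j => ((List.range 4).filter fun i => !decide (i = j)).map
    fun i => 4 * k + i

/-- the edges -/
def hyp (K : ℕ) (Ts : List Term) : List (List ℕ) := (List.range K).flatMap heg ++ Ts.map het

theorem TE_hyp {K : ℕ} {Ts : List Term} {D : Finset ℕ} : TE (hyp K Ts) D ↔ TH K Ts D := by
  unfold TE TH hyp
  constructor
  · intro h
    refine ⟨fun k hk j hj => ?_, fun τ hτ => ?_⟩
    · obtain ⟨v, hv, hvD⟩ := h (((List.range 4).filter fun i => !decide (i = j)).map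
        fun i => 4 * k + i) (by
          rw [List.mem_append, List.mem_flatMap]
          left
          exact ⟨k, List.mem_range.2 hk, List.mem_map.2 ⟨j, List.mem_range.2 hj, rfl⟩⟩)
      simp only [List.mem_map, List.mem_filter, List.mem_range, Bool.not_eq_true',
        decide_eq_false_iff_not] at hv
      obtain ⟨i, ⟨hi, hij⟩, rfl⟩ := hv
      exact ⟨i, hi, hij, hvD⟩
    · obtain ⟨v, hv, hvD⟩ := h (het τ) (by
        rw [List.mem_append]
        exact Or.inr (List.mem_map_of_mem hτ))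
      unfold het at hv
      simp only [List.mem_flatMap, List.mem_map, List.mem_filter, List.mem_range] at hv
      obtain ⟨l, hl, i, ⟨hi, hP⟩, rfl⟩ := hv
      exact ⟨l, hl, i, hi, hP, hvD⟩
  · rintro ⟨h1, h2⟩ e he
    rw [List.mem_append, List.mem_flatMap, List.mem_map] at he
    rcases he with ⟨k, hk, he⟩ | ⟨τ, hτ, rfl⟩
    · obtain ⟨j, hj, rfl⟩ := List.mem_map.1 he
      obtain ⟨i, hi, hij, hD⟩ := h1 k (List.mem_range.1 hk) j (List.mem_range.1 hj)
      refine ⟨4 * k + i, ?_, hD⟩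
      simp only [List.mem_map, List.mem_filter, List.mem_range, Bool.not_eq_true',
        decide_eq_false_iff_not]
      exact ⟨i, ⟨hi, hij⟩, rfl⟩
    · obtain ⟨l, hl, i, hi, hP, hD⟩ := h2 τ hτ
      refine ⟨4 * l.1 + i, ?_, hD⟩
      unfold het
      simp only [List.mem_flatMap, List.mem_map, List.mem_filter, List.mem_range]
      exact ⟨l, hl, i, ⟨hi, hP⟩, rfl⟩

theorem hyp_lt {K : ℕ} {Ts : List Term} (hTs : ∀ τ ∈ Ts, ∀ l ∈ τ, l.1 < K) :
    ∀ e ∈ hyp K Ts, ∀ v ∈ e, v < 4 * K := by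
  intro e he v hv
  unfold hyp at he
  rw [List.mem_append, List.mem_flatMap, List.mem_map] at he
  rcases he with ⟨k, hk, he⟩ | ⟨τ, hτ, rfl⟩
  · obtain ⟨j, hj, rfl⟩ := List.mem_map.1 he
    simp only [List.mem_map, List.mem_filter, List.mem_range] at hv hk
    obtain ⟨i, ⟨hi, _⟩, rfl⟩ := hv
    omega
  · unfold het at hv
    simp only [List.mem_flatMap, List.mem_map, List.mem_filter, List.mem_range] at hv
    obtain ⟨l, hl, i, ⟨hi, hP⟩, rfl⟩ := hv
    have := hTs τ hτ l hl
    omega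

theorem hyp_ne {K : ℕ} {Ts : List Term} (hK : 0 < K) : hyp K Ts ≠ [] := by
  obtain ⟨K, rfl⟩ : ∃ K', K = K' + 1 := ⟨K - 1, by omega⟩
  unfold hyp
  rw [List.range_succ_eq_map]
  simp [heg, List.range_succ_eq_map]

/-- the graph of a formula -/
def gQ (Q : QF) : Mat := gm (4 * kk Q) (hyp (kk Q) (tms Q))

theorem wcDom_gQ {Q : QF} (hQ : QFwf Q) (hQ3 : ∀ w ∈ Q.2, w.length ≤ 3) :
    WCDom (gQ Q) ↔ evq Q.1 (fun v => evc v Q.2) = true := by
  unfold WCDom gQ
  have hlt := tms_lt hQ
  rw [dominatorWins_gm (hyp_lt hlt) (hyp_ne (by unfold kk; omega)), ← aw_iff hQ hQ3,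
    ← win_iff_aw hlt]
  have : TE (hyp (kk Q) (tms Q)) = TH (kk Q) (tms Q) := by
    funext D
    exact propext TE_hyp
  rw [this]
  exact ⟨fun h => h.2, fun h => ⟨isGraph_gm, h⟩⟩

/-! ### Polynomial time -/

theorem poly_het : NPC.Poly het := by
  unfold het inP
  fun_prop

theorem poly_heg : NPC.Poly heg := by
  unfold heg
  fun_prop

theorem poly_tmE : NPC.Poly tmE := by
  unfold tmE
  fun_prop

theorem poly_tmU : NPC.Poly tmU := by
  unfold tmU
  fun_prop

theorem poly_lits {α : Type} [TEnc α] {qs : α → List Bool} {w : α → List (Bool × ℕ)}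
    (hq : NPC.Poly qs) (hw : NPC.Poly w) (i : ℕ) : NPC.Poly (fun a => lits (qs a) (w a) i) := by
  unfold lits one
  have : NPC.Poly (fun a => (w a)[i]?) := by fun_prop
  refine NPC.Poly.optElim (h := fun a l => ((allV.filter fun v =>
    (bif (qs a).getD l.2 false then v.2 else v.1) != l.1).map fun v => (2 * l.2 + 1, v)).map
      fun x => [x]) this (NPC.Poly.const _) ?_
  have h1 : NPC.Poly (fun p : (α × (Bool × ℕ)) × (Bool × Bool) =>
      (bif (qs p.1.1).getD p.1.2.2 false then p.2.2 else p.2.1) != p.1.2.1) := by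
    have : NPC.Poly (fun p : (α × (Bool × ℕ)) × (Bool × Bool) =>
        !decide ((bif (qs p.1.1).getD p.1.2.2 false then p.2.2 else p.2.1) = p.1.2.1)) := by
      fun_prop
    refine this.congr fun p => ?_
    cases (bif (qs p.1.1).getD p.1.2.2 false then p.2.2 else p.2.1) <;> cases p.1.2.1 <;> rfl
  fun_prop

theorem poly_tmC : NPC.Poly (fun p : List Bool × List (Bool × ℕ) => tmC p.1 p.2) := by
  unfold tmC
  have h : ∀ (i : ℕ) {α : Type} [TEnc α] {f : α → List Bool × List (Bool × ℕ)}, NPC.Poly f →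
      NPC.Poly (fun a => lits (f a).1 (f a).2 i) := by
    intro i α _ f hf
    exact poly_lits (NPC.Poly.fst hf) (NPC.Poly.snd hf) i
  refine NPC.Poly.flatMap (l := fun p : List Bool × List (Bool × ℕ) => lits p.1 p.2 0)
    (F := fun p a => (lits p.1 p.2 1).flatMap fun b => (lits p.1 p.2 2).map fun x => a ++ (b ++ x))
    (h 0 NPC.Poly.id) ?_
  refine NPC.Poly.flatMap (l := fun p : (List Bool × List (Bool × ℕ)) × Term => lits p.1.1 p.1.2 1)
    (F := fun p b => (lits p.1.1 p.1.2 2).map fun x => p.2 ++ (b ++ x))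
    (h 1 (NPC.Poly.fst NPC.Poly.id)) ?_
  refine NPC.Poly.map (l := fun p : ((List Bool × List (Bool × ℕ)) × Term) × Term =>
    lits p.1.1.1 p.1.1.2 2) (F := fun p x => p.1.2 ++ (p.2 ++ x))
    (h 2 (NPC.Poly.fst (NPC.Poly.fst NPC.Poly.id))) ?_
  fun_prop

theorem poly_tms : NPC.Poly tms := by
  unfold tms
  have hr : NPC.Poly (fun Q : QF => List.range Q.1.length) :=
    (UPoly.length (NPC.Poly.fst NPC.Poly.id)).range
  refine NPC.Poly.append ?_ (NPC.Poly.append ?_ ?_)
  · refine NPC.Poly.flatMap (l := fun Q : QF => Q.2) (F := fun Q w => tmC Q.1 w)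
      (NPC.Poly.snd NPC.Poly.id) ?_
    exact poly_tmC.comp (f := fun p : QF × List (Bool × ℕ) => (p.1.1, p.2)) (by fun_prop)
  · exact NPC.Poly.flatMap (F := fun _ j => tmE j) hr (poly_tmE.comp (NPC.Poly.snd NPC.Poly.id))
  · refine NPC.Poly.flatMap (l := fun Q : QF => (List.range Q.1.length).filter
      fun j => Q.1.getD j false) (F := fun _ j => tmU j) ?_
      (poly_tmU.comp (NPC.Poly.snd NPC.Poly.id))
    exact NPC.Poly.filter (p := fun (Q : QF) j => Q.1.getD j false) hr (by fun_prop)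

theorem upoly_kk : UPoly kk := by
  unfold kk
  exact UPoly.add (UPoly.mul (UPoly.const 2) (UPoly.length (NPC.Poly.fst NPC.Poly.id)))
    (UPoly.const 1)

theorem poly_hyp : NPC.Poly (fun Q : QF => hyp (kk Q) (tms Q)) := by
  unfold hyp
  refine NPC.Poly.append ?_ ?_
  · exact NPC.Poly.flatMap (l := fun Q : QF => List.range (kk Q)) (F := fun _ k => heg k)
      upoly_kk.range (poly_heg.comp (NPC.Poly.snd NPC.Poly.id))
  · exact NPC.Poly.map (F := fun _ τ => het τ) poly_tms (poly_het.comp (NPC.Poly.snd NPC.Poly.id))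

theorem poly_adjb {β : Type} [TEnc β] {m N x y : β → ℕ} {E : β → List (List ℕ)}
    (hm : NPC.Poly m) (hN : NPC.Poly N) (hx : NPC.Poly x) (hy : NPC.Poly y) (hE : NPC.Poly E) :
    NPC.Poly (fun b => (decide (x b < m b) && (decide (y b < m b) && !decide (x b = y b))) ||
  ((decide (x b < m b) && (decide (m b ≤ y b) &&
    decide (x b ∈ (E b).getD ((y b - m b) / N b) []))) ||
  (decide (m b ≤ x b) && (decide (y b < m b) &&
    decide (y b ∈ (E b).getD ((x b - m b) / N b) []))))) := by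
  fun_prop

theorem poly_gm {α : Type} [TEnc α] {m : α → ℕ} {E : α → List (List ℕ)} (hm : UPoly m)
    (hE : NPC.Poly E) : NPC.Poly (fun a => gm (m a) (E a)) := by
  have hnc : UPoly (fun a => nc (m a) (E a)) := UPoly.add hm (UPoly.length hE)
  have htot : UPoly (fun a => tot (m a) (E a)) :=
    UPoly.add hm (UPoly.mul (UPoly.length hE) hnc)
  have hmp := hm.toPoly
  have hncp := hnc.toPoly
  unfold gm
  refine NPC.Poly.map (l := fun a => List.range (tot (m a) (E a)))
    (F := fun a x => (List.range (tot (m a) (E a))).map fun y => adjb (m a) (E a) x y)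
    htot.range ?_
  refine NPC.Poly.map (l := fun p : α × ℕ => List.range (tot (m p.1) (E p.1)))
    (F := fun p y => adjb (m p.1) (E p.1) p.2 y)
    (htot.comp (f := fun p : α × ℕ => p.1) (NPC.Poly.fst NPC.Poly.id)).range ?_
  unfold adjb
  have hx : NPC.Poly (fun p : (α × ℕ) × ℕ => p.1.1) := NPC.Poly.fst (NPC.Poly.fst NPC.Poly.id)
  exact poly_adjb (hmp.comp hx) (hncp.comp hx) (NPC.Poly.snd (NPC.Poly.fst NPC.Poly.id))
    (NPC.Poly.snd NPC.Poly.id) (hE.comp hx)

theorem poly_gQ : NPC.Poly gQ := by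
  unfold gQ
  exact poly_gm (UPoly.mul (UPoly.const 4) upoly_kk) poly_hyp

theorem wcDom_hard : PSPACEHard (lang WCDom) := by
  intro L hL
  obtain ⟨f, hf, hwf, h3, hf'⟩ := qbf3_hard hL
  exact ⟨fun x => bits (gQ (f x)), polyTime_bits (poly_gQ.comp hf), fun x => by
    rw [hf' x, bits_mem_lang, wcDom_gQ (hwf x) (h3 x)]⟩

end Pool.Agent.V11231.WC
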